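import Mathlib

/-!
# Critical points of a quadratic form on the simplex
-/

open Finset

namespace Pool.Agent.H69.CPR

variable {ι : Type} [Fintype ι]

/-- The quadratic form of a kernel. -/
noncomputable def qf (M : ι → ι → ℝ) (m : ι → ℝ) : ℝ := ∑ a, ∑ b, M a b * (m a * m b)

theorem qf_continuous (M : ι → ι → ℝ) : Continuous (qf M) := by
  unfold qf
  fun_prop

theorem qf_smul (M : ι → ι → ℝ) (m : ι → ℝ) (t : ℝ) : qf M (fun a => t * m a) = t ^ 2 * qf M m := by
  unfold qf
  rw [Finset.mul_sum]
  refine Finset.sum_congr rfl fun a _ => ?_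
  rw [Finset.mul_sum]
  refine Finset.sum_congr rfl fun b _ => ?_
  ring

theorem qf_eq (M : ι → ι → ℝ) (m : ι → ℝ) : qf M m = ∑ a, m a * ∑ b, M a b * m b := by
  unfold qf
  refine Finset.sum_congr rfl fun a _ => ?_
  rw [Finset.mul_sum]
  refine Finset.sum_congr rfl fun b _ => ?_
  ring

theorem qf_shift [DecidableEq ι] (M : ι → ι → ℝ) (hM : ∀ a b, M a b = M b a) (x : ι → ℝ) (p q : ι) (t : ℝ) :
    qf M (fun c => x c + t * ((if c = q then 1 else 0) - (if c = p then 1 else 0)))
      = qf M x + 2 * t * (∑ b, M q b * x b - ∑ b, M p b * x b)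
        + t ^ 2 * (M q q + M p p - 2 * M p q) := by
  set d : ι → ℝ := fun c => (if c = q then 1 else 0) - (if c = p then 1 else 0) with hd
  have h0 : ∀ f : ι → ℝ, ∑ c, d c * f c = f q - f p := by
    intro f
    simp [hd, sub_mul, Finset.sum_sub_distrib]
  have h1 : ∑ a, ∑ b, M a b * (d a * x b) = ∑ b, M q b * x b - ∑ b, M p b * x b := by
    have e : ∑ a, ∑ b, M a b * (d a * x b) = ∑ a, d a * ∑ b, M a b * x b := by
      refine Finset.sum_congr rfl fun a _ => ?_
      rw [Finset.mul_sum]
      refine Finset.sum_congr rfl fun b _ => ?_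
      ring
    rw [e, h0]
  have h2 : ∑ a, ∑ b, M a b * (x a * d b) = ∑ b, M q b * x b - ∑ b, M p b * x b := by
    rw [← h1, Finset.sum_comm]
    refine Finset.sum_congr rfl fun a _ => Finset.sum_congr rfl fun b _ => ?_
    rw [hM b a]
    ring
  have h3 : ∑ a, ∑ b, M a b * (d a * d b) = M q q + M p p - 2 * M p q := by
    have e : ∑ a, ∑ b, M a b * (d a * d b) = ∑ a, d a * ∑ b, d b * M a b := by
      refine Finset.sum_congr rfl fun a _ => ?_
      rw [Finset.mul_sum]
      refine Finset.sum_congr rfl fun b _ => ?_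
      ring
    rw [e, h0, h0, h0, hM q p]
    ring
  have h4 : qf M (fun c => x c + t * d c) = qf M x + t * ∑ a, ∑ b, M a b * (d a * x b)
      + t * ∑ a, ∑ b, M a b * (x a * d b) + t ^ 2 * ∑ a, ∑ b, M a b * (d a * d b) := by
    unfold qf
    rw [Finset.mul_sum, Finset.mul_sum, Finset.mul_sum, ← Finset.sum_add_distrib,
      ← Finset.sum_add_distrib, ← Finset.sum_add_distrib]
    refine Finset.sum_congr rfl fun a _ => ?_
    rw [Finset.mul_sum, Finset.mul_sum, Finset.mul_sum, ← Finset.sum_add_distrib,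
      ← Finset.sum_add_distrib, ← Finset.sum_add_distrib]
    refine Finset.sum_congr rfl fun b _ => ?_
    ring
  rw [h4, h1, h2, h3]
  ring

/-- A kernel which is not copositive has a critical point of negative value on the simplex. -/
theorem exists_violator (M : ι → ι → ℝ) (hM : ∀ a b, M a b = M b a) (m : ι → ℝ)
    (hm : ∀ a, 0 ≤ m a) (hneg : qf M m < 0) :
    ∃ (x : ι → ℝ) (v : ℝ), (∀ a, 0 ≤ x a) ∧ v < 0 ∧ qf M x < 0 ∧
      ∀ a, 0 < x a → ∑ b, M a b * x b = v := by
  classical
  have hs : 0 < ∑ a, m a := by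
    rcases (Finset.sum_nonneg fun a (_ : a ∈ univ) => hm a).eq_or_lt with h | h
    · exfalso
      have h' : ∀ a, m a = 0 := fun a =>
        (Finset.sum_eq_zero_iff_of_nonneg fun a _ => hm a).1 h.symm a (mem_univ a)
      have : qf M m = 0 := by
        unfold qf
        exact Finset.sum_eq_zero fun a _ => Finset.sum_eq_zero fun b _ => by rw [h' a]; ring
      linarith
    · exact h
  obtain ⟨x, hx, hmin⟩ := (isCompact_stdSimplex ℝ ι).exists_isMinOn
    ⟨fun a => (∑ b, m b)⁻¹ * m a, ⟨fun a => mul_nonneg (inv_nonneg.2 hs.le) (hm a), by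
      rw [← Finset.mul_sum, inv_mul_cancel₀ hs.ne']⟩⟩ (qf_continuous M).continuousOn
  have hqx : qf M x < 0 := by
    have h1 := hmin (a := fun a => (∑ b, m b)⁻¹ * m a)
      ⟨fun a => mul_nonneg (inv_nonneg.2 hs.le) (hm a), by
      rw [← Finset.mul_sum, inv_mul_cancel₀ hs.ne']⟩
    simp only [Set.mem_ofPred_eq] at h1
    rw [qf_smul] at h1
    have h2 : ((∑ b, m b)⁻¹) ^ 2 * qf M m < 0 :=
      mul_neg_of_pos_of_neg (by positivity) hneg
    linarith
  have hle : ∀ p q, 0 < x p → ∑ b, M p b * x b ≤ ∑ b, M q b * x b := by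
    intro p q hp
    by_contra hlt
    push Not at hlt
    set T : ℝ := ∑ b, M p b * x b - ∑ b, M q b * x b with hT
    have hT0 : 0 < T := by rw [hT]; linarith
    set c : ℝ := M q q + M p p - 2 * M p q with hc
    set t : ℝ := min (x p) (T / (|c| + 1)) with ht
    have ht0 : 0 < t := lt_min hp (by positivity)
    have ht1 : t ≤ x p := min_le_left _ _
    have ht2 : t * (|c| + 1) ≤ T := by
      have : t ≤ T / (|c| + 1) := min_le_right _ _
      rwa [le_div_iff₀ (by positivity)] at this
    have h1 := hmin (a := fun z => x z + t * ((if z = q then 1 else 0) - (if z = p then 1 else 0)))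
      ⟨fun z => ?_, ?_⟩
    · simp only [Set.mem_ofPred_eq] at h1
      rw [qf_shift M hM] at h1
      have h2 : ∑ b, M q b * x b - ∑ b, M p b * x b = -T := by rw [hT]; ring
      rw [h2] at h1
      have h3 : c ≤ |c| := le_abs_self c
      have h4 : t ^ 2 * c ≤ t * (t * |c|) := by
        have : t ^ 2 * c ≤ t ^ 2 * |c| := mul_le_mul_of_nonneg_left h3 (sq_nonneg t)
        linarith [this, (by ring : t ^ 2 * |c| = t * (t * |c|))]
      have h5 : t * (t * |c|) ≤ t * T := mul_le_mul_of_nonneg_left (by nlinarith) ht0.le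
      nlinarith
    · have h0 := hx.1 z
      have h3 : (if z = p then (1 : ℝ) else 0) * t ≤ x z := by
        by_cases h1 : z = p
        · rw [if_pos h1, h1, one_mul]
          exact ht1
        · rw [if_neg h1, zero_mul]
          exact h0
      have h4 : 0 ≤ t * (if z = q then (1 : ℝ) else 0) := by
        apply mul_nonneg ht0.le
        split_ifs <;> norm_num
      show 0 ≤ x z + t * ((if z = q then 1 else 0) - (if z = p then 1 else 0))
      nlinarith
    · rw [Finset.sum_add_distrib, hx.2, ← Finset.mul_sum, Finset.sum_sub_distrib]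
      simp
  -- the common value
  have hex : ∃ p, 0 < x p := by
    by_contra h
    push Not at h
    have h' : ∀ a, x a = 0 := fun a => le_antisymm (h a) (hx.1 a)
    have := hx.2
    simp [h'] at this
  obtain ⟨p, hp⟩ := hex
  have hval : ∀ a, 0 < x a → ∑ b, M a b * x b = ∑ b, M p b * x b := fun a ha =>
    le_antisymm (hle a p ha) (hle p a hp)
  refine ⟨x, ∑ b, M p b * x b, hx.1, ?_, hqx, hval⟩
  have h1 : qf M x = ∑ b, M p b * x b := by
    rw [qf_eq]
    have : ∀ a, x a * ∑ b, M a b * x b = x a * ∑ b, M p b * x b := by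
      intro a
      rcases (hx.1 a).eq_or_lt with h | h
      · rw [← h]; ring
      · rw [hval a h]
    rw [Finset.sum_congr rfl fun a _ => this a, ← Finset.sum_mul, hx.2, one_mul]
  rw [← h1]
  exact hqx

end Pool.Agent.H69.CPR
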