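import Mathlib
import Pool.Agent.H69.CPR.Copos

/-!
# Motzkin-Straus type inequalities
-/

open Finset

namespace Pool.Agent.H69.CPR

variable {ι : Type} [Fintype ι]

/-- **Weighted Mantel inequality** with vertex masses. -/
theorem mantel_qf (E : ι → ι → ℝ) (g : ι → ℝ) (h0 : ∀ a b, 0 ≤ E a b)
    (hs : ∀ a b, E a b = E b a) (h : ∀ a b, 0 < E a b → ∀ c, E a c + E b c ≤ 1)
    (hg : ∀ a, 0 ≤ g a) : qf E g ≤ (∑ a, g a) ^ 2 / 2 := by
  classical
  set W : ℝ := ∑ a, g a with hW
  have hW0 : 0 ≤ W := Finset.sum_nonneg fun a _ => hg a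
  set S : ι → ℝ := fun a => ∑ b, E a b * g b with hS
  have hS0 : ∀ a, 0 ≤ S a := fun a => Finset.sum_nonneg fun b _ => mul_nonneg (h0 a b) (hg b)
  have hQ : qf E g = ∑ a, g a * S a := qf_eq E g
  have h1 : ∀ a b, E a b * (g a * g b) * (S a + S b) ≤ E a b * (g a * g b) * W := by
    intro a b
    rcases (h0 a b).eq_or_lt with h' | h'
    · rw [← h']; simp
    · apply mul_le_mul_of_nonneg_left _ (mul_nonneg h'.le (mul_nonneg (hg a) (hg b)))
      calc S a + S b = ∑ c, (E a c + E b c) * g c := by
            rw [hS, ← Finset.sum_add_distrib]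
            exact Finset.sum_congr rfl fun c _ => by ring
        _ ≤ ∑ c, 1 * g c := Finset.sum_le_sum fun c _ => mul_le_mul_of_nonneg_right (h a b h' c) (hg c)
        _ = W := by simp [hW]
  have h2 : ∑ a, ∑ b, E a b * (g a * g b) * (S a + S b) = 2 * ∑ a, g a * S a ^ 2 := by
    have e1 : ∑ a, ∑ b, E a b * (g a * g b) * S a = ∑ a, g a * S a ^ 2 := by
      refine Finset.sum_congr rfl fun a _ => ?_
      have : ∑ b, E a b * (g a * g b) * S a = g a * S a * ∑ b, E a b * g b := by
        rw [Finset.mul_sum]
        exact Finset.sum_congr rfl fun b _ => by ring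
      rw [this]
      show g a * S a * S a = _
      ring
    have e2 : ∑ a, ∑ b, E a b * (g a * g b) * S b = ∑ a, g a * S a ^ 2 := by
      rw [Finset.sum_comm, ← e1]
      refine Finset.sum_congr rfl fun u _ => Finset.sum_congr rfl fun v _ => ?_
      rw [hs v u]
      ring
    have e3 : ∑ a, ∑ b, E a b * (g a * g b) * (S a + S b)
        = ∑ a, ∑ b, E a b * (g a * g b) * S a + ∑ a, ∑ b, E a b * (g a * g b) * S b := by
      rw [← Finset.sum_add_distrib]
      refine Finset.sum_congr rfl fun u _ => ?_
      rw [← Finset.sum_add_distrib]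
      exact Finset.sum_congr rfl fun v _ => by ring
    rw [e3, e1, e2]
    ring
  have h3 : ∑ a, ∑ b, E a b * (g a * g b) * W = qf E g * W := by
    unfold qf
    rw [Finset.sum_mul]
    refine Finset.sum_congr rfl fun u _ => ?_
    rw [← Finset.sum_mul]
  have h4 : 2 * ∑ a, g a * S a ^ 2 ≤ qf E g * W := by
    rw [← h2, ← h3]
    exact Finset.sum_le_sum fun u _ => Finset.sum_le_sum fun v _ => h1 u v
  have h5 : (qf E g) ^ 2 ≤ W * ∑ a, g a * S a ^ 2 := by
    rw [hQ]
    have := Finset.sum_mul_sq_le_sq_mul_sq (univ : Finset ι) (fun a => √(g a))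
      (fun a => √(g a) * S a)
    have e1 : ∀ a, √(g a) * (√(g a) * S a) = g a * S a := by
      intro a
      rw [← mul_assoc, Real.mul_self_sqrt (hg a)]
    have e2 : ∀ a, √(g a) ^ 2 = g a := fun a => Real.sq_sqrt (hg a)
    have e3 : ∀ a, (√(g a) * S a) ^ 2 = g a * S a ^ 2 := by
      intro a
      rw [mul_pow, Real.sq_sqrt (hg a)]
    simp only [e1, e2, e3] at this
    exact this
  have hq0 : 0 ≤ qf E g := by
    rw [hQ]
    exact Finset.sum_nonneg fun a _ => mul_nonneg (hg a) (hS0 a)
  rcases hq0.eq_or_lt with h' | h'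
  · rw [← h']
    positivity
  · have h6 : 2 * (qf E g) ^ 2 ≤ (qf E g * W) * W := by
      have := mul_le_mul_of_nonneg_left h4 hW0
      nlinarith
    have h7 : (2 * qf E g) * qf E g ≤ W ^ 2 * qf E g := by nlinarith
    have h8 := le_of_mul_le_mul_right h7 h'
    linarith

/-- The case of a clique: total weight at most `4`, each weight at most `1`. -/
theorem clique_case [DecidableEq ι] (κ : ι → ι → ℝ) (hs : ∀ a b, κ a b = κ b a)
    (hd : ∀ a, κ a a = 0) (h0 : ∀ a b, 0 ≤ κ a b) (h1 : ∀ a b, κ a b ≤ 1) (S : Finset ι)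
    (m : ι → ℝ) (hm : ∀ a, 0 ≤ m a) (htot : ∑ a ∈ S, ∑ b ∈ S, κ a b ≤ 4) :
    ∑ a ∈ S, ∑ b ∈ S, κ a b * (m a * m b) ≤ (∑ a ∈ S, m a) ^ 2 / 2 := by
  rcases S.eq_empty_or_nonempty with hS | hS
  · subst hS
    simp
  obtain ⟨p, hp, hpmax⟩ := Finset.exists_max_image S m hS
  have hsum1 : ∑ a ∈ S, m a = m p + ∑ a ∈ S.erase p, m a := by
    rw [Finset.add_sum_erase S m hp]
  rcases (S.erase p).eq_empty_or_nonempty with hS1 | hS1
  · have hSp : S = {p} := by
      rw [Finset.erase_eq_empty_iff] at hS1
      rcases hS1 with h | h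
      · exact absurd h hS.ne_empty
      · exact h
    subst hSp
    simp only [Finset.sum_singleton, hd, zero_mul]
    positivity
  obtain ⟨q, hq, hqmax⟩ := Finset.exists_max_image (S.erase p) m hS1
  have hsum2 : ∑ a ∈ S.erase p, m a = m q + ∑ a ∈ (S.erase p).erase q, m a := by
    rw [Finset.add_sum_erase (S.erase p) m hq]
  have hpq : q ≠ p := (Finset.mem_erase.1 hq).1
  have hqS : q ∈ S := (Finset.mem_erase.1 hq).2
  obtain ⟨μ, hμ0, hμ1, hμ2, hμ3⟩ : ∃ μ : ℝ, 0 ≤ μ ∧ (∀ a ∈ (S.erase p).erase q, m a ≤ μ) ∧
      μ ≤ m q ∧ μ ≤ ∑ a ∈ (S.erase p).erase q, m a := by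
    rcases ((S.erase p).erase q).eq_empty_or_nonempty with h | h
    · refine ⟨0, le_rfl, ?_, hm q, ?_⟩
      · rw [h]; simp
      · rw [h]; simp
    · obtain ⟨r, hr, hrmax⟩ := Finset.exists_max_image _ m h
      refine ⟨m r, hm r, hrmax, hqmax r (Finset.mem_erase.1 hr).2, ?_⟩
      exact Finset.single_le_sum (fun a _ => hm a) hr
  have hpt : ∀ a ∈ S, ∀ b ∈ S, κ a b * (m a * m b) ≤ κ a b * (m p * μ)
      + ((if a = p then (if b = q then (m p * m q - m p * μ) else 0) else 0)
        + (if a = q then (if b = p then (m p * m q - m p * μ) else 0) else 0)) := by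
    intro a ha b hb
    have hpos : 0 ≤ m p * m q - m p * μ := by
      have := mul_le_mul_of_nonneg_left hμ2 (hm p)
      linarith
    have hnn : 0 ≤ ((if a = p then (if b = q then (m p * m q - m p * μ) else 0) else 0)
        + (if a = q then (if b = p then (m p * m q - m p * μ) else 0) else 0)) := by
      apply add_nonneg
      · split_ifs <;> first | exact hpos | exact le_rfl
      · split_ifs <;> first | exact hpos | exact le_rfl
    by_cases hab : a = b
    · subst hab
      rw [hd]
      simp only [zero_mul, zero_add]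
      exact hnn
    · by_cases h2 : (a = p ∧ b = q)
      · obtain ⟨rfl, rfl⟩ := h2
        rw [if_pos rfl, if_pos rfl, if_neg (Ne.symm hpq)]
        have h3 := h1 a b
        have h4 := h0 a b
        nlinarith
      · by_cases h3 : (a = q ∧ b = p)
        · obtain ⟨rfl, rfl⟩ := h3
          rw [if_neg hpq, if_pos rfl, if_pos rfl]
          have h3 := h1 a b
          have h4 := h0 a b
          have h5 : κ a b * (m a * m b - m b * μ) ≤ 1 * (m b * m a - m b * μ) := by
            rw [mul_comm (m a)]
            exact mul_le_mul_of_nonneg_right h3 hpos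
          nlinarith
        · -- one of `a`, `b` is in the rest
          have h4 : m a * m b ≤ m p * μ := by
            by_cases ha' : a = p ∨ a = q
            · have hb' : b ∈ (S.erase p).erase q := by
                rw [Finset.mem_erase, Finset.mem_erase]
                rcases ha' with rfl | rfl
                · exact ⟨fun h => h2 ⟨rfl, h⟩, fun h => hab h.symm, hb⟩
                · exact ⟨fun h => hab h.symm, fun h => h3 ⟨rfl, h⟩, hb⟩
              exact mul_le_mul (hpmax a ha) (hμ1 b hb') (hm b) (hm p)
            · push Not at ha'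
              have ha'' : a ∈ (S.erase p).erase q := by
                rw [Finset.mem_erase, Finset.mem_erase]
                exact ⟨ha'.2, ha'.1, ha⟩
              rw [mul_comm]
              exact mul_le_mul (hpmax b hb) (hμ1 a ha'') (hm a) (hm p)
          have h5 := mul_le_mul_of_nonneg_left h4 (h0 a b)
          linarith
  have hsum : ∑ a ∈ S, ∑ b ∈ S, κ a b * (m a * m b)
      ≤ ∑ a ∈ S, ∑ b ∈ S, (κ a b * (m p * μ)
      + ((if a = p then (if b = q then (m p * m q - m p * μ) else 0) else 0)
        + (if a = q then (if b = p then (m p * m q - m p * μ) else 0) else 0))) :=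
    Finset.sum_le_sum fun a ha => Finset.sum_le_sum fun b hb => hpt a ha b hb
  have hcalc : ∑ a ∈ S, ∑ b ∈ S, (κ a b * (m p * μ)
      + ((if a = p then (if b = q then (m p * m q - m p * μ) else 0) else 0)
        + (if a = q then (if b = p then (m p * m q - m p * μ) else 0) else 0)))
      = (∑ a ∈ S, ∑ b ∈ S, κ a b) * (m p * μ) + 2 * (m p * m q - m p * μ) := by
    simp only [Finset.sum_add_distrib, ← Finset.sum_mul]
    have e1 : ∑ a ∈ S, ∑ b ∈ S, (if a = p then (if b = q then (m p * m q - m p * μ) else 0) else 0)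
        = m p * m q - m p * μ := by
      rw [Finset.sum_eq_single p]
      · simp [hqS]
      · intro b _ hb
        simp [hb]
      · intro h
        exact absurd hp h
    have e2 : ∑ a ∈ S, ∑ b ∈ S, (if a = q then (if b = p then (m p * m q - m p * μ) else 0) else 0)
        = m p * m q - m p * μ := by
      rw [Finset.sum_eq_single q]
      · simp [hp]
      · intro b _ hb
        simp [hb]
      · intro h
        exact absurd hqS h
    rw [e1, e2]
    ring
  rw [hcalc] at hsum
  have h5 : (∑ a ∈ S, ∑ b ∈ S, κ a b) * (m p * μ) ≤ 4 * (m p * μ) :=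
    mul_le_mul_of_nonneg_right htot (mul_nonneg (hm p) hμ0)
  have h6 : m p + m q + μ ≤ ∑ a ∈ S, m a := by
    rw [hsum1, hsum2]
    linarith
  have h7 : 0 ≤ m p + m q + μ := by
    have := hm p
    have := hm q
    linarith
  have h8 : (m p + m q + μ) ^ 2 ≤ (∑ a ∈ S, m a) ^ 2 := pow_le_pow_left₀ h7 h6 2
  nlinarith [sq_nonneg (m p - (m q + μ))]

/-- **Motzkin-Straus inequality** for kernels of bounded total weight on their cliques. -/
theorem kappa_ms [DecidableEq ι] (κ : ι → ι → ℝ) (hs : ∀ a b, κ a b = κ b a)
    (hd : ∀ a, κ a a = 0) (h0 : ∀ a b, 0 ≤ κ a b) (h1 : ∀ a b, κ a b ≤ 1)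
    (hcl : ∀ S : Finset ι, (∀ a ∈ S, ∀ b ∈ S, a ≠ b → 0 < κ a b) →
      ∑ a ∈ S, ∑ b ∈ S, κ a b ≤ 4)
    (m : ι → ℝ) (hm : ∀ a, 0 ≤ m a) : qf κ m ≤ (∑ a, m a) ^ 2 / 2 := by
  suffices H : ∀ n : ℕ, ∀ m : ι → ℝ, (∀ a, 0 ≤ m a) → (univ.filter fun a => 0 < m a).card ≤ n →
      qf κ m ≤ (∑ a, m a) ^ 2 / 2 from H _ m hm le_rfl
  intro n
  induction n with
  | zero =>
    intro m hm hcard
    have h : ∀ a, m a = 0 := by
      intro a
      by_contra h
      have h' : 0 < m a := lt_of_le_of_ne (hm a) (Ne.symm h)
      have : a ∈ univ.filter fun a => 0 < m a := by simp [h']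
      have := Finset.card_pos.2 ⟨a, this⟩
      omega
    have : qf κ m = 0 := by
      unfold qf
      exact Finset.sum_eq_zero fun a _ => Finset.sum_eq_zero fun b _ => by rw [h a]; ring
    rw [this]
    positivity
  | succ n ih =>
    intro m hm hcard
    by_cases hex : ∃ p q, p ≠ q ∧ 0 < m p ∧ 0 < m q ∧ κ p q = 0
    · -- move the mass
      have key : ∀ p q, p ≠ q → 0 < m p → 0 < m q → κ p q = 0 →
          ∑ b, κ p b * m b ≤ ∑ b, κ q b * m b → qf κ m ≤ (∑ a, m a) ^ 2 / 2 := by
        intro p q hpq hp hq hκ hle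
        set m' : ι → ℝ := fun z => m z + m p * ((if z = q then 1 else 0) - (if z = p then 1 else 0))
          with hm'
        have e1 : qf κ m' = qf κ m + 2 * m p * (∑ b, κ q b * m b - ∑ b, κ p b * m b) := by
          rw [hm', qf_shift κ hs, hd, hd, hκ]
          ring
        have e2 : ∑ a, m' a = ∑ a, m a := by
          rw [hm', Finset.sum_add_distrib, ← Finset.mul_sum, Finset.sum_sub_distrib]
          simp
        have e3 : ∀ a, 0 ≤ m' a := by
          intro a
          simp only [hm']
          by_cases hap : a = p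
          · subst hap
            rw [if_neg hpq, if_pos rfl]
            linarith
          · by_cases haq : a = q
            · subst haq
              rw [if_neg hap, if_pos rfl]
              linarith
            · rw [if_neg hap, if_neg haq]
              linarith [hm a]
        have e4 : (univ.filter fun a => 0 < m' a).card ≤ n := by
          have hsub : (univ.filter fun a => 0 < m' a) ⊆ (univ.filter fun a => 0 < m a).erase p := by
            intro a ha
            simp only [Finset.mem_filter, Finset.mem_univ, true_and, Finset.mem_erase] at ha ⊢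
            simp only [hm'] at ha
            by_cases hap : a = p
            · subst hap
              rw [if_neg hpq, if_pos rfl] at ha
              exfalso
              linarith
            · refine ⟨hap, ?_⟩
              by_cases haq : a = q
              · subst haq
                exact hq
              · rw [if_neg hap, if_neg haq] at ha
                linarith
          have h2 := Finset.card_le_card hsub
          rw [Finset.card_erase_of_mem (by simp [hp])] at h2
          omega
        have h5 := ih m' e3 e4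
        rw [e1, e2] at h5
        have h6 : 0 ≤ 2 * m p * (∑ b, κ q b * m b - ∑ b, κ p b * m b) :=
          mul_nonneg (by linarith) (by linarith)
        linarith
      obtain ⟨p, q, hpq, hp, hq, hκ⟩ := hex
      rcases le_total (∑ b, κ p b * m b) (∑ b, κ q b * m b) with h | h
      · exact key p q hpq hp hq hκ h
      · exact key q p hpq.symm hq hp (by rw [hs]; exact hκ) h
    · push Not at hex
      set S : Finset ι := univ.filter fun a => 0 < m a with hS
      have hSpos : ∀ a ∈ S, ∀ b ∈ S, a ≠ b → 0 < κ a b := by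
        intro a ha b hb hab
        rw [hS, Finset.mem_filter] at ha hb
        exact lt_of_le_of_ne (h0 a b) (Ne.symm (hex a b hab ha.2 hb.2))
      have h2 := clique_case κ hs hd h0 h1 S m hm (hcl S hSpos)
      have hz : ∀ a, a ∉ S → m a = 0 := by
        intro a ha
        rw [hS, Finset.mem_filter, not_and] at ha
        exact le_antisymm (not_lt.1 (ha (mem_univ a))) (hm a)
      have e1 : qf κ m = ∑ a ∈ S, ∑ b ∈ S, κ a b * (m a * m b) := by
        unfold qf
        symm
        rw [← Finset.sum_subset (Finset.subset_univ S)]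
        · refine Finset.sum_congr rfl fun a _ => ?_
          rw [← Finset.sum_subset (Finset.subset_univ S)]
          intro b _ hb
          rw [hz b hb]
          ring
        · intro a _ ha
          refine Finset.sum_eq_zero fun b _ => ?_
          rw [hz a ha]
          ring
      have e2 : ∑ a, m a = ∑ a ∈ S, m a := by
        symm
        exact Finset.sum_subset (Finset.subset_univ S) fun a _ ha => hz a ha
      rw [e1, e2]
      exact h2

end Pool.Agent.H69.CPR
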