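import Mathlib
import Pool.Agent.H69.CPR.MS

/-!
# The local inequality on a clique of types

`y` is a dual kernel on the types inside one clique, `V` its negative part, `ρ = (2 y - 1)⁺`.
We prove that `√2 V - (ρ + √ρ)` is copositive.
-/

open Finset

namespace Pool.Agent.H69.CPR

variable {ι : Type} [Fintype ι]

theorem qf_lin (M M' : ι → ι → ℝ) (s t : ℝ) (m : ι → ℝ) :
    qf (fun a b => s * M a b + t * M' a b) m = s * qf M m + t * qf M' m := by
  unfold qf
  rw [Finset.mul_sum, Finset.mul_sum, ← Finset.sum_add_distrib]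
  refine Finset.sum_congr rfl fun a _ => ?_
  rw [Finset.mul_sum, Finset.mul_sum, ← Finset.sum_add_distrib]
  exact Finset.sum_congr rfl fun b _ => by ring

theorem qf_mono (M M' : ι → ι → ℝ) (m : ι → ℝ) (hm : ∀ a, 0 ≤ m a) (h : ∀ a b, M a b ≤ M' a b) :
    qf M m ≤ qf M' m := by
  unfold qf
  exact Finset.sum_le_sum fun a _ => Finset.sum_le_sum fun b _ =>
    mul_le_mul_of_nonneg_right (h a b) (mul_nonneg (hm a) (hm b))

theorem qf_nonneg (M : ι → ι → ℝ) (m : ι → ℝ) (hm : ∀ a, 0 ≤ m a) (h : ∀ a b, 0 ≤ M a b) :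
    0 ≤ qf M m := by
  unfold qf
  exact Finset.sum_nonneg fun a _ => Finset.sum_nonneg fun b _ =>
    mul_nonneg (h a b) (mul_nonneg (hm a) (hm b))

/-- A dual kernel on the types of a clique. -/
structure Ker (y : ι → ι → ℝ) : Prop where
  sym : ∀ a b, y a b = y b a
  h0 : ∀ a, y a a ≤ 0
  h2 : ∀ a b, y a b ≤ 1
  h3 : ∀ a b x, y a b + y a x + y b x ≤ 1
  h4 : ∀ a b c d, 1 / 2 < y a b → 1 / 2 < y c d →
    y a b + y c d + y a c + y a d + y b c + y b d ≤ 1

/-- positive part -/
noncomputable def pos (y : ι → ι → ℝ) : ι → ι → ℝ := fun a b => max (y a b) 0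

/-- negative part -/
noncomputable def neg (y : ι → ι → ℝ) : ι → ι → ℝ := fun a b => max (-y a b) 0

/-- `(2 y - 1)⁺` -/
noncomputable def rho (y : ι → ι → ℝ) : ι → ι → ℝ := fun a b => max (2 * y a b - 1) 0

/-- `√(2 y - 1)⁺` -/
noncomputable def srho (y : ι → ι → ℝ) : ι → ι → ℝ := fun a b => √(rho y a b)

/-- the graph of the pairs of value above `1/2` -/
noncomputable def gr (y : ι → ι → ℝ) : ι → ι → ℝ := fun a b => if 1 / 2 < y a b then 1 else 0

section

omit [Fintype ι]

theorem pos_nonneg (y : ι → ι → ℝ) (a b : ι) : 0 ≤ pos y a b := le_max_right _ _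
theorem neg_nonneg' (y : ι → ι → ℝ) (a b : ι) : 0 ≤ neg y a b := le_max_right _ _
theorem rho_nonneg (y : ι → ι → ℝ) (a b : ι) : 0 ≤ rho y a b := le_max_right _ _
theorem srho_nonneg (y : ι → ι → ℝ) (a b : ι) : 0 ≤ srho y a b := Real.sqrt_nonneg _
theorem gr_nonneg (y : ι → ι → ℝ) (a b : ι) : 0 ≤ gr y a b := by
  unfold gr; split_ifs <;> norm_num

theorem srho_sq (y : ι → ι → ℝ) (a b : ι) : srho y a b * srho y a b = rho y a b :=
  Real.mul_self_sqrt (rho_nonneg y a b)

theorem y_eq (y : ι → ι → ℝ) (a b : ι) : y a b = pos y a b - neg y a b := by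
  unfold pos neg
  rcases le_total (y a b) 0 with h | h
  · rw [max_eq_right h, max_eq_left (by linarith)]; ring
  · rw [max_eq_left h, max_eq_right (by linarith)]; ring

theorem rho_of_lt {y : ι → ι → ℝ} {a b : ι} (h : 1 / 2 < y a b) : rho y a b = 2 * y a b - 1 := by
  unfold rho
  exact max_eq_left (by linarith)

theorem rho_of_ge {y : ι → ι → ℝ} {a b : ι} (h : ¬ 1 / 2 < y a b) : rho y a b = 0 := by
  unfold rho
  exact max_eq_right (by linarith [not_lt.1 h])

theorem srho_of_ge {y : ι → ι → ℝ} {a b : ι} (h : ¬ 1 / 2 < y a b) : srho y a b = 0 := by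
  unfold srho
  rw [rho_of_ge h, Real.sqrt_zero]

end

namespace Ker

variable {y : ι → ι → ℝ} (hy : Ker y)

section

include hy

omit [Fintype ι]

theorem neg_sym (a b : ι) : neg y a b = neg y b a := by unfold neg; rw [hy.sym a b]
theorem pos_sym (a b : ι) : pos y a b = pos y b a := by unfold pos; rw [hy.sym a b]
theorem rho_sym (a b : ι) : rho y a b = rho y b a := by unfold rho; rw [hy.sym a b]
theorem srho_sym (a b : ι) : srho y a b = srho y b a := by unfold srho; rw [hy.rho_sym a b]
theorem gr_sym (a b : ι) : gr y a b = gr y b a := by unfold gr; rw [hy.sym a b]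

theorem rho_le_one (a b : ι) : rho y a b ≤ 1 := by
  unfold rho
  exact max_le (by linarith [hy.h2 a b]) zero_le_one

theorem rho_le_srho (a b : ι) : rho y a b ≤ srho y a b := by
  have h1 := hy.rho_le_one a b
  have h0 := rho_nonneg y a b
  unfold srho
  apply Real.le_sqrt_of_sq_le
  nlinarith

theorem srho_le_one (a b : ι) : srho y a b ≤ 1 := by
  unfold srho
  rw [Real.sqrt_le_iff]
  exact ⟨zero_le_one, by rw [one_pow]; exact hy.rho_le_one a b⟩

/-- the three point inequality -/
theorem three (a b c : ι) : srho y a b * srho y a c ≤ neg y b c := by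
  by_cases hab : 1 / 2 < y a b
  · by_cases hac : 1 / 2 < y a c
    · have h3 := hy.h3 a b c
      have e1 := rho_of_lt hab
      have e2 := rho_of_lt hac
      have h5 : -y b c ≤ neg y b c := le_max_left _ _
      have h6 := srho_sq y a b
      have h7 := srho_sq y a c
      nlinarith [sq_nonneg (srho y a b - srho y a c)]
    · rw [srho_of_ge hac, mul_zero]
      exact neg_nonneg' y b c
  · rw [srho_of_ge hab, zero_mul]
    exact neg_nonneg' y b c

theorem gr_tf (a b : ι) (h : 0 < gr y a b) (c : ι) : gr y a c + gr y b c ≤ 1 := by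
  unfold gr at *
  have hab : 1 / 2 < y a b := by
    by_contra h'
    rw [if_neg h'] at h
    exact lt_irrefl _ h
  by_cases h1 : 1 / 2 < y a c
  · by_cases h2 : 1 / 2 < y b c
    · exfalso
      have := hy.h3 a b c
      linarith
    · rw [if_pos h1, if_neg h2]; norm_num
  · rw [if_neg h1]
    split_ifs <;> norm_num

end

include hy

section forms

variable {m : ι → ℝ} (hm : ∀ a, 0 ≤ m a)

include hm

theorem srho_mul_s_le (a b : ι) :
    srho y a b * ∑ c, srho y a c * m c ≤ ∑ c, neg y b c * m c := by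
  rw [Finset.mul_sum]
  refine Finset.sum_le_sum fun c _ => ?_
  rw [← mul_assoc]
  exact mul_le_mul_of_nonneg_right (hy.three a b c) (hm c)

omit hy hm in
theorem four_sum (F : ι → ι → ℝ) (hF : ∀ a b, F a b = F b a) :
    ∑ a, ∑ b, ∑ c, ∑ d, F a b * F c d * (y a c + y a d + y b c + y b d)
      = 4 * ∑ a, ∑ c, y a c * ((∑ b, F a b) * (∑ d, F c d)) := by
  have f1 : ∑ a, ∑ b, ∑ c, ∑ d, F a b * F c d * y a c
      = ∑ a, ∑ c, y a c * ((∑ b, F a b) * (∑ d, F c d)) := by
    refine Finset.sum_congr rfl fun a _ => ?_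
    rw [Finset.sum_comm]
    refine Finset.sum_congr rfl fun c _ => ?_
    rw [Finset.sum_mul_sum, Finset.mul_sum]
    refine Finset.sum_congr rfl fun b _ => ?_
    rw [Finset.mul_sum]
    exact Finset.sum_congr rfl fun d _ => by ring
  have f2 : ∑ a, ∑ b, ∑ c, ∑ d, F a b * F c d * y a d
      = ∑ a, ∑ b, ∑ c, ∑ d, F a b * F c d * y a c := by
    refine Finset.sum_congr rfl fun a _ => Finset.sum_congr rfl fun b _ => ?_
    rw [Finset.sum_comm]
    refine Finset.sum_congr rfl fun c _ => Finset.sum_congr rfl fun d _ => ?_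
    rw [hF d c]
  have f3 : ∑ a, ∑ b, ∑ c, ∑ d, F a b * F c d * y b c
      = ∑ a, ∑ b, ∑ c, ∑ d, F a b * F c d * y a c := by
    rw [Finset.sum_comm]
    refine Finset.sum_congr rfl fun a _ => Finset.sum_congr rfl fun b _ => ?_
    refine Finset.sum_congr rfl fun c _ => Finset.sum_congr rfl fun d _ => ?_
    rw [hF b a]
  have f4 : ∑ a, ∑ b, ∑ c, ∑ d, F a b * F c d * y b d
      = ∑ a, ∑ b, ∑ c, ∑ d, F a b * F c d * y a d := by
    rw [Finset.sum_comm]
    refine Finset.sum_congr rfl fun a _ => Finset.sum_congr rfl fun b _ => ?_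
    refine Finset.sum_congr rfl fun c _ => Finset.sum_congr rfl fun d _ => ?_
    rw [hF b a]
  have f5 : ∑ a, ∑ b, ∑ c, ∑ d, F a b * F c d * (y a c + y a d + y b c + y b d)
      = ∑ a, ∑ b, ∑ c, ∑ d, F a b * F c d * y a c + ∑ a, ∑ b, ∑ c, ∑ d, F a b * F c d * y a d
        + ∑ a, ∑ b, ∑ c, ∑ d, F a b * F c d * y b c
        + ∑ a, ∑ b, ∑ c, ∑ d, F a b * F c d * y b d := by
    simp only [← Finset.sum_add_distrib]
    refine Finset.sum_congr rfl fun a _ => Finset.sum_congr rfl fun b _ => ?_
    refine Finset.sum_congr rfl fun c _ => Finset.sum_congr rfl fun d _ => ?_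
    ring
  rw [f5, f4, f3, f2, f1]
  ring

/-- the four point inequality, averaged -/
theorem four (s : ι → ℝ) (hs : s = fun a => ∑ b, srho y a b * m b) :
    4 * qf y (fun a => m a * s a) ≤ -(qf (srho y) m * qf (fun a b => srho y a b * rho y a b) m) := by
  set F : ι → ι → ℝ := fun a b => srho y a b * (m a * m b) with hF
  have hFs : ∀ a b, F a b = F b a := by
    intro a b
    simp only [hF]
    rw [hy.srho_sym a b]
    ring
  have hF0 : ∀ a b, 0 ≤ F a b := fun a b =>
    mul_nonneg (srho_nonneg y a b) (mul_nonneg (hm a) (hm b))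
  have hFsum : ∀ a, ∑ b, F a b = m a * s a := by
    intro a
    simp only [hF, hs]
    rw [Finset.mul_sum]
    exact Finset.sum_congr rfl fun b _ => by ring
  set P : ℝ := qf (srho y) m with hP
  have hPF : ∑ a, ∑ b, F a b = P := rfl
  set Q : ℝ := qf (fun a b => srho y a b * rho y a b) m with hQ
  have hR : ∑ a, ∑ b, F a b * y a b = (P + Q) / 2 := by
    rw [hP, hQ]
    unfold qf
    rw [← Finset.sum_add_distrib, Finset.sum_div]
    refine Finset.sum_congr rfl fun a _ => ?_
    rw [← Finset.sum_add_distrib, Finset.sum_div]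
    refine Finset.sum_congr rfl fun b _ => ?_
    simp only [hF]
    by_cases hab : 1 / 2 < y a b
    · rw [rho_of_lt hab]
      ring
    · rw [srho_of_ge hab]
      ring
  -- the sum of the four point inequalities
  have hmain : ∑ a, ∑ b, ∑ c, ∑ d, F a b * F c d * (y a c + y a d + y b c + y b d)
      ≤ ∑ a, ∑ b, ∑ c, ∑ d, (F a b * F c d - F a b * y a b * F c d - F a b * (F c d * y c d)) := by
    refine Finset.sum_le_sum fun a _ => Finset.sum_le_sum fun b _ => Finset.sum_le_sum fun c _ =>
      Finset.sum_le_sum fun d _ => ?_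
    by_cases hab : 1 / 2 < y a b
    · by_cases hcd : 1 / 2 < y c d
      · have h4 := hy.h4 a b c d hab hcd
        have h5 := mul_nonneg (hF0 a b) (hF0 c d)
        nlinarith
      · have : F c d = 0 := by simp only [hF]; rw [srho_of_ge hcd, zero_mul]
        rw [this]
        simp
    · have : F a b = 0 := by simp only [hF]; rw [srho_of_ge hab, zero_mul]
      rw [this]
      simp
  have hrhs : ∑ a, ∑ b, ∑ c, ∑ d, (F a b * F c d - F a b * y a b * F c d - F a b * (F c d * y c d))
      = P * P - (P + Q) / 2 * P - P * ((P + Q) / 2) := by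
    have e1 : ∀ a b, ∑ c, ∑ d, (F a b * F c d - F a b * y a b * F c d - F a b * (F c d * y c d))
        = F a b * P - F a b * y a b * P - F a b * ((P + Q) / 2) := by
      intro a b
      simp only [Finset.sum_sub_distrib, ← Finset.mul_sum]
      rw [hPF, hR]
    simp only [e1]
    simp only [Finset.sum_sub_distrib, ← Finset.sum_mul]
    rw [hPF, hR]
  have hlhs : ∑ a, ∑ b, ∑ c, ∑ d, F a b * F c d * (y a c + y a d + y b c + y b d)
      = 4 * qf y (fun a => m a * s a) := by
    rw [four_sum F hFs]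
    unfold qf
    congr 1
    refine Finset.sum_congr rfl fun a _ => Finset.sum_congr rfl fun c _ => ?_
    rw [hFsum, hFsum]
  rw [hlhs, hrhs] at hmain
  nlinarith

omit hy in
theorem cs_rho : (qf (rho y) m) ^ 2
    ≤ qf (srho y) m * qf (fun a b => srho y a b * rho y a b) m := by
  unfold qf
  rw [← Fintype.sum_prod_type' (f := fun a b => rho y a b * (m a * m b)),
    ← Fintype.sum_prod_type' (f := fun a b => srho y a b * (m a * m b)),
    ← Fintype.sum_prod_type' (f := fun a b => srho y a b * rho y a b * (m a * m b))]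
  have key := Finset.sum_mul_sq_le_sq_mul_sq (univ : Finset (ι × ι))
    (fun p => √(srho y p.1 p.2 * (m p.1 * m p.2)))
    (fun p => √(srho y p.1 p.2 * (m p.1 * m p.2)) * srho y p.1 p.2)
  have hnn : ∀ p : ι × ι, 0 ≤ srho y p.1 p.2 * (m p.1 * m p.2) := fun p =>
    mul_nonneg (srho_nonneg y _ _) (mul_nonneg (hm _) (hm _))
  have e1 : ∀ p : ι × ι, √(srho y p.1 p.2 * (m p.1 * m p.2))
      * (√(srho y p.1 p.2 * (m p.1 * m p.2)) * srho y p.1 p.2)
      = rho y p.1 p.2 * (m p.1 * m p.2) := by
    intro p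
    rw [← mul_assoc, Real.mul_self_sqrt (hnn p), ← srho_sq y p.1 p.2]
    ring
  have e2 : ∀ p : ι × ι, √(srho y p.1 p.2 * (m p.1 * m p.2)) ^ 2
      = srho y p.1 p.2 * (m p.1 * m p.2) := fun p => Real.sq_sqrt (hnn p)
  have e3 : ∀ p : ι × ι, (√(srho y p.1 p.2 * (m p.1 * m p.2)) * srho y p.1 p.2) ^ 2
      = srho y p.1 p.2 * rho y p.1 p.2 * (m p.1 * m p.2) := by
    intro p
    rw [mul_pow, Real.sq_sqrt (hnn p), ← srho_sq y p.1 p.2]
    ring
  simp only [e1, e2, e3] at key
  exact key

/-- **The inequality CR+.** -/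
theorem crplus (s N : ι → ℝ) (hs : s = fun a => ∑ b, srho y a b * m b)
    (hN : N = fun a => ∑ b, neg y a b * m b) :
    qf (gr y) (fun a => m a * s a) + (qf (rho y) m) ^ 2 / 2 ≤ qf (gr y) (fun a => m a * N a) := by
  have hs0 : ∀ a, 0 ≤ s a := by
    intro a
    rw [hs]
    exact Finset.sum_nonneg fun b _ => mul_nonneg (srho_nonneg y a b) (hm b)
  have hA : ∀ a b, srho y a b * s a ≤ N b := by
    intro a b
    rw [hs, hN]
    exact hy.srho_mul_s_le hm a b
  -- (b)
  have hb : ∑ a, ∑ b, (srho y a b * (m a * m b) * (s a * N a + s b * N b)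
      - rho y a b * ((m a * s a) * (m b * s b))) ≤ qf (gr y) (fun a => m a * N a) := by
    unfold qf
    refine Finset.sum_le_sum fun a _ => Finset.sum_le_sum fun b _ => ?_
    by_cases hab : 1 / 2 < y a b
    · have h1 : 0 ≤ N b - srho y a b * s a := sub_nonneg.2 (hA a b)
      have h2 : 0 ≤ N a - srho y a b * s b := by
        have := hA b a
        rw [← hy.srho_sym a b] at this
        exact sub_nonneg.2 this
      have h3 : gr y a b = 1 := if_pos hab
      have h4 := mul_nonneg (mul_nonneg (hm a) (hm b)) (mul_nonneg h1 h2)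
      rw [h3, ← srho_sq y a b]
      nlinarith
    · have h3 : gr y a b = 0 := if_neg hab
      rw [srho_of_ge hab, rho_of_ge hab, h3]
      simp
  -- the first sum
  have e1 : ∑ a, ∑ b, srho y a b * (m a * m b) * (s a * N a) = ∑ a, m a * s a ^ 2 * N a := by
    refine Finset.sum_congr rfl fun a _ => ?_
    have : ∑ b, srho y a b * (m a * m b) * (s a * N a)
        = m a * s a * N a * ∑ b, srho y a b * m b := by
      rw [Finset.mul_sum]
      exact Finset.sum_congr rfl fun b _ => by ring
    rw [this]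
    have h' : ∑ b, srho y a b * m b = s a := by rw [hs]
    rw [h']
    ring
  have e2 : ∑ a, ∑ b, srho y a b * (m a * m b) * (s b * N b) = ∑ a, m a * s a ^ 2 * N a := by
    rw [Finset.sum_comm, ← e1]
    refine Finset.sum_congr rfl fun a _ => Finset.sum_congr rfl fun b _ => ?_
    rw [hy.srho_sym b a]
    ring
  have e3 : ∑ a, ∑ b, (srho y a b * (m a * m b) * (s a * N a + s b * N b)
      - rho y a b * ((m a * s a) * (m b * s b)))
      = 2 * ∑ a, m a * s a ^ 2 * N a - qf (rho y) (fun a => m a * s a) := by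
    have : ∑ a, ∑ b, (srho y a b * (m a * m b) * (s a * N a + s b * N b)
      - rho y a b * ((m a * s a) * (m b * s b)))
      = ∑ a, ∑ b, srho y a b * (m a * m b) * (s a * N a)
        + ∑ a, ∑ b, srho y a b * (m a * m b) * (s b * N b)
        - ∑ a, ∑ b, rho y a b * ((m a * s a) * (m b * s b)) := by
      simp only [← Finset.sum_add_distrib, ← Finset.sum_sub_distrib]
      refine Finset.sum_congr rfl fun a _ => Finset.sum_congr rfl fun b _ => ?_
      ring
    rw [this, e1, e2]
    unfold qf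
    ring
  -- (c)
  have hc : qf (neg y) (fun a => m a * s a) ≤ ∑ a, m a * s a ^ 2 * N a := by
    have f1 : ∑ a, ∑ b, neg y a b * (m a * m b) * (s a ^ 2) = ∑ a, m a * s a ^ 2 * N a := by
      refine Finset.sum_congr rfl fun a _ => ?_
      have : ∑ b, neg y a b * (m a * m b) * (s a ^ 2)
          = m a * s a ^ 2 * ∑ b, neg y a b * m b := by
        rw [Finset.mul_sum]
        exact Finset.sum_congr rfl fun b _ => by ring
      rw [this, hN]
    have f2 : ∑ a, ∑ b, neg y a b * (m a * m b) * (s b ^ 2) = ∑ a, m a * s a ^ 2 * N a := by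
      rw [Finset.sum_comm, ← f1]
      refine Finset.sum_congr rfl fun a _ => Finset.sum_congr rfl fun b _ => ?_
      rw [hy.neg_sym b a]
      ring
    have f3 : 2 * qf (neg y) (fun a => m a * s a)
        ≤ ∑ a, ∑ b, neg y a b * (m a * m b) * (s a ^ 2)
          + ∑ a, ∑ b, neg y a b * (m a * m b) * (s b ^ 2) := by
      unfold qf
      rw [Finset.mul_sum, ← Finset.sum_add_distrib]
      refine Finset.sum_le_sum fun a _ => ?_
      rw [Finset.mul_sum, ← Finset.sum_add_distrib]
      refine Finset.sum_le_sum fun b _ => ?_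
      have h1 := mul_nonneg (neg_nonneg' y a b) (mul_nonneg (hm a) (hm b))
      have h2 := mul_nonneg h1 (sq_nonneg (s a - s b))
      nlinarith
    rw [f1, f2] at f3
    linarith
  -- (e)
  have he1 : qf y (fun a => m a * s a)
      = qf (pos y) (fun a => m a * s a) - qf (neg y) (fun a => m a * s a) := by
    have := qf_lin (pos y) (neg y) 1 (-1) (fun a => m a * s a)
    rw [one_mul, neg_one_mul, ← sub_eq_add_neg] at this
    rw [← this]
    congr 1
    funext a b
    rw [y_eq y a b]
    ring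
  have he2 : qf (gr y) (fun a => m a * s a) + qf (rho y) (fun a => m a * s a)
      ≤ 2 * qf (pos y) (fun a => m a * s a) := by
    have h1 := qf_lin (gr y) (rho y) 1 1 (fun a => m a * s a)
    have h2 := qf_lin (pos y) (pos y) 1 1 (fun a => m a * s a)
    rw [one_mul, one_mul] at h1
    rw [one_mul] at h2
    rw [← h1, two_mul, ← h2]
    apply qf_mono _ _ _ (fun a => mul_nonneg (hm a) (hs0 a))
    intro a b
    have hp : y a b ≤ pos y a b := le_max_left _ _
    by_cases hab : 1 / 2 < y a b
    · have h3 : gr y a b = 1 := if_pos hab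
      rw [h3, rho_of_lt hab]
      linarith
    · have h3 : gr y a b = 0 := if_neg hab
      rw [h3, rho_of_ge hab]
      have := pos_nonneg y a b
      linarith
  have hfour := hy.four hm s hs
  have hcs := cs_rho (y := y) hm
  rw [e3] at hb
  rw [he1] at hfour
  linarith

/-- **The local inequality**: `√2 V - (ρ + √ρ)` is copositive. -/
theorem linplus : qf (fun a b => rho y a b + srho y a b) m ≤ √2 * qf (neg y) m := by
  classical
  set M : ι → ι → ℝ := fun a b => √2 * neg y a b + (-1) * (rho y a b + srho y a b) with hM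
  have hqM : ∀ z : ι → ℝ, qf M z = √2 * qf (neg y) z
      + (-1) * qf (fun a b => rho y a b + srho y a b) z := by
    intro z
    exact qf_lin _ _ _ _ z
  by_contra hcon
  push Not at hcon
  have hneg : qf M m < 0 := by
    rw [hqM]
    linarith
  have hMs : ∀ a b, M a b = M b a := by
    intro a b
    simp only [hM]
    rw [hy.neg_sym a b, hy.rho_sym a b, hy.srho_sym a b]
  obtain ⟨x, v, hx0, hv, hqx, hval⟩ := exists_violator M hMs m hm hneg
  set s : ι → ℝ := fun a => ∑ b, srho y a b * x b with hs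
  set N : ι → ℝ := fun a => ∑ b, neg y a b * x b with hN
  set δ : ι → ℝ := fun a => ∑ b, rho y a b * x b with hδ
  have hs0 : ∀ a, 0 ≤ s a := fun a =>
    Finset.sum_nonneg fun b _ => mul_nonneg (srho_nonneg y a b) (hx0 b)
  have hN0 : ∀ a, 0 ≤ N a := fun a =>
    Finset.sum_nonneg fun b _ => mul_nonneg (neg_nonneg' y a b) (hx0 b)
  have hδ0 : ∀ a, 0 ≤ δ a := fun a =>
    Finset.sum_nonneg fun b _ => mul_nonneg (rho_nonneg y a b) (hx0 b)
  have hδs : ∀ a, δ a ≤ s a := fun a =>
    Finset.sum_le_sum fun b _ => mul_le_mul_of_nonneg_right (hy.rho_le_srho a b) (hx0 b)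
  have hcrit : ∀ a, 0 < x a → √2 * N a = δ a + s a + v := by
    intro a ha
    have h1 := hval a ha
    have h2 : ∑ b, M a b * x b = √2 * N a - (δ a + s a) := by
      simp only [hM, hN, hδ, hs]
      rw [Finset.mul_sum, ← Finset.sum_add_distrib, ← Finset.sum_sub_distrib]
      exact Finset.sum_congr rfl fun b _ => by ring
    linarith
  have hcr := hy.crplus hx0 s N hs hN
  have hms : qf (gr y) (fun a => x a * δ a) ≤ (∑ a, x a * δ a) ^ 2 / 2 :=
    mantel_qf (gr y) _ (gr_nonneg y) hy.gr_sym hy.gr_tf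
      (fun a => mul_nonneg (hx0 a) (hδ0 a))
  have hD : ∑ a, x a * δ a = qf (rho y) x := (qf_eq (rho y) x).symm
  rw [hD] at hms
  -- upper bound for `2 B`
  have hB : 2 * qf (gr y) (fun a => x a * N a)
      ≤ 2 * qf (gr y) (fun a => x a * s a) + 2 * qf (gr y) (fun a => x a * δ a)
        - v ^ 2 * qf (gr y) x := by
    unfold qf
    rw [Finset.mul_sum, Finset.mul_sum, Finset.mul_sum, Finset.mul_sum, ← Finset.sum_add_distrib,
      ← Finset.sum_sub_distrib]
    refine Finset.sum_le_sum fun a _ => ?_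
    rw [Finset.mul_sum, Finset.mul_sum, Finset.mul_sum, Finset.mul_sum, ← Finset.sum_add_distrib,
      ← Finset.sum_sub_distrib]
    refine Finset.sum_le_sum fun b _ => ?_
    rcases (hx0 a).eq_or_lt with ha | ha
    · have hz : x a = 0 := ha.symm
      simp [hz]
    rcases (hx0 b).eq_or_lt with hb | hb
    · have hz : x b = 0 := hb.symm
      simp [hz]
    have h1 := hcrit a ha
    have h2 := hcrit b hb
    have hsq : √2 * √2 = 2 := Real.mul_self_sqrt (by norm_num)
    have h3 : 2 * (N a * N b) = (δ a + s a + v) * (δ b + s b + v) := by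
      rw [← h1, ← h2]
      have : √2 * N a * (√2 * N b) = (√2 * √2) * (N a * N b) := by ring
      rw [this, hsq]
    have hsqpos : 0 ≤ √2 := Real.sqrt_nonneg 2
    have h4 : 0 ≤ δ a + s a + v := by rw [← h1]; exact mul_nonneg hsqpos (hN0 a)
    have h5 : 0 ≤ δ b + s b + v := by rw [← h2]; exact mul_nonneg hsqpos (hN0 b)
    have h6 : 2 * (N a * N b) ≤ 2 * (s a * s b) + 2 * (δ a * δ b) - v ^ 2 := by
      rw [h3]
      have h7 : 0 ≤ (s a - δ a) * (s b - δ b) :=
        mul_nonneg (sub_nonneg.2 (hδs a)) (sub_nonneg.2 (hδs b))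
      nlinarith [mul_nonneg h4 (neg_nonneg.2 hv.le), mul_nonneg h5 (neg_nonneg.2 hv.le)]
    have h8 : 0 ≤ gr y a b * (x a * x b) :=
      mul_nonneg (gr_nonneg y a b) (mul_nonneg ha.le hb.le)
    have h9 := mul_le_mul_of_nonneg_left h6 h8
    nlinarith
  -- positivity of the mass of the graph
  have hG0 : 0 < qf (gr y) x := by
    have h1 : qf (fun a b => rho y a b + srho y a b) x ≤ 2 * qf (gr y) x := by
      have h2 := qf_lin (gr y) (gr y) 1 1 x
      rw [one_mul] at h2
      rw [two_mul, ← h2]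
      apply qf_mono _ _ _ hx0
      intro a b
      have h3 := hy.rho_le_one a b
      have h4 := hy.srho_le_one a b
      by_cases hab : 1 / 2 < y a b
      · have h5 : gr y a b = 1 := if_pos hab
        rw [h5]
        linarith
      · have h5 : gr y a b = 0 := if_neg hab
        rw [h5, rho_of_ge hab, srho_of_ge hab]
        norm_num
    have h2 : 0 ≤ √2 * qf (neg y) x :=
      mul_nonneg (Real.sqrt_nonneg 2) (qf_nonneg _ _ hx0 (neg_nonneg' y))
    rw [hqM] at hqx
    linarith
  have hv2 : 0 < v ^ 2 := by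
    have := mul_pos_of_neg_of_neg hv hv
    nlinarith
  have := mul_pos hv2 hG0
  linarith

end forms

end Ker

end Pool.Agent.H69.CPR
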