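import Mathlib
import Pool.Agent.H29.CPR.Simple
import Pool.Agent.H69.CPR.Lin

/-!
# Averaging a dual kernel over the type preserving permutations
-/

open Finset

namespace Pool.Agent.H69.CPR

open Pool.Agent.H29.CPR

variable {D k : ℕ}

/-- the permutations preserving the types -/
def Gam (T : Fin D → Finset (Fin k)) : Finset (Equiv.Perm (Fin D)) :=
  univ.filter fun g => ∀ u, T (g u) = T u

theorem mem_Gam {T : Fin D → Finset (Fin k)} {g : Equiv.Perm (Fin D)} :
    g ∈ Gam T ↔ ∀ u, T (g u) = T u := by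
  simp [Gam]

theorem card_Gam_pos (T : Fin D → Finset (Fin k)) : (0 : ℝ) < (Gam T).card := by
  have : 0 < (Gam T).card := Finset.card_pos.2 ⟨1, mem_Gam.2 fun u => rfl⟩
  exact_mod_cast this

/-- the symmetrised and averaged kernel -/
noncomputable def avg (T : Fin D → Finset (Fin k)) (y : Fin D → Fin D → ℝ) :
    Fin D → Fin D → ℝ := fun u v =>
  (∑ g ∈ Gam T, (y (g u) (g v) + y (g v) (g u))) / (2 * (Gam T).card)

theorem avg_sym (T : Fin D → Finset (Fin k)) (y : Fin D → Fin D → ℝ) (u v : Fin D) :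
    avg T y u v = avg T y v u := by
  unfold avg
  congr 1
  exact Finset.sum_congr rfl fun g _ => add_comm _ _

theorem avg_inv (T : Fin D → Finset (Fin k)) (y : Fin D → Fin D → ℝ) {h : Equiv.Perm (Fin D)}
    (hh : h ∈ Gam T) (u v : Fin D) : avg T y (h u) (h v) = avg T y u v := by
  unfold avg
  congr 1
  refine Finset.sum_equiv (Equiv.mulRight h) ?_ ?_
  · intro g
    rw [mem_Gam] at hh
    rw [mem_Gam, mem_Gam, Equiv.coe_mulRight]
    constructor
    · intro hg w
      rw [Equiv.Perm.mul_apply, hg, hh]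
    · intro hg w
      have h1 := hg (h.symm w)
      rw [Equiv.Perm.mul_apply, Equiv.apply_symm_apply] at h1
      rw [h1]
      have h2 := hh (h.symm w)
      rw [Equiv.apply_symm_apply] at h2
      exact h2.symm
  · intro g _
    rw [Equiv.coe_mulRight, Equiv.Perm.mul_apply, Equiv.Perm.mul_apply]

theorem adj_Gam {T : Fin D → Finset (Fin k)} {g : Equiv.Perm (Fin D)} (hg : g ∈ Gam T)
    (u v : Fin D) : (tg T).Adj (g u) (g v) ↔ (tg T).Adj u v := by
  rw [mem_Gam] at hg
  show (g u ≠ g v ∧ (T (g u) ∩ T (g v)).Nonempty) ↔ (u ≠ v ∧ (T u ∩ T v).Nonempty)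
  rw [hg, hg, g.injective.ne_iff]

theorem pw_map (y : Fin D → Fin D → ℝ) (g : Equiv.Perm (Fin D)) (K : Finset (Fin D)) :
    ∑ u ∈ K, ∑ v ∈ K, (if u = v then 0 else y (g u) (g v)) = pw y (K.map g.toEmbedding) := by
  unfold pw
  rw [Finset.sum_map]
  refine Finset.sum_congr rfl fun u _ => ?_
  rw [Finset.sum_map]
  refine Finset.sum_congr rfl fun v _ => ?_
  simp only [Equiv.coe_toEmbedding]
  by_cases huv : u = v
  · simp [huv]
  · rw [if_neg huv, if_neg (fun h => huv (g.injective h))]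

theorem pw_map' (y : Fin D → Fin D → ℝ) (g : Equiv.Perm (Fin D)) (K : Finset (Fin D)) :
    ∑ u ∈ K, ∑ v ∈ K, (if u = v then 0 else y (g v) (g u)) = pw y (K.map g.toEmbedding) := by
  rw [← pw_map, Finset.sum_comm]
  refine Finset.sum_congr rfl fun u _ => Finset.sum_congr rfl fun v _ => ?_
  by_cases huv : u = v
  · simp [huv]
  · rw [if_neg huv, if_neg (Ne.symm huv)]

theorem isCl_map {T : Fin D → Finset (Fin k)} {g : Equiv.Perm (Fin D)} (hg : g ∈ Gam T)
    {K : Finset (Fin D)} (hK : IsCl (tg T) K) : IsCl (tg T) (K.map g.toEmbedding) := by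
  intro a ha b hb hab
  rw [Finset.mem_map] at ha hb
  obtain ⟨u, hu, rfl⟩ := ha
  obtain ⟨v, hv, rfl⟩ := hb
  simp only [Equiv.coe_toEmbedding] at hab ⊢
  rw [adj_Gam hg]
  exact hK u hu v hv (fun h => hab (by rw [h]))

theorem pw_avg (T : Fin D → Finset (Fin k)) (y : Fin D → Fin D → ℝ)
    (hy : ∀ K, IsCl (tg T) K → pw y K ≤ 2) (K : Finset (Fin D)) (hK : IsCl (tg T) K) :
    pw (avg T y) K ≤ 2 := by
  have hc := card_Gam_pos T
  have h1 : (2 * ((Gam T).card : ℝ)) * pw (avg T y) K
      = ∑ g ∈ Gam T, (2 * pw y (K.map g.toEmbedding)) := by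
    have e1 : ∀ g ∈ Gam T, 2 * pw y (K.map g.toEmbedding)
        = ∑ u ∈ K, ∑ v ∈ K, (if u = v then 0 else (y (g u) (g v) + y (g v) (g u))) := by
      intro g _
      rw [two_mul]
      nth_rw 1 [← pw_map]
      rw [← pw_map', ← Finset.sum_add_distrib]
      refine Finset.sum_congr rfl fun u _ => ?_
      rw [← Finset.sum_add_distrib]
      refine Finset.sum_congr rfl fun v _ => ?_
      split_ifs <;> simp
    rw [Finset.sum_congr rfl e1, Finset.sum_comm]
    unfold pw
    rw [Finset.mul_sum]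
    refine Finset.sum_congr rfl fun u _ => ?_
    rw [Finset.mul_sum, Finset.sum_comm]
    refine Finset.sum_congr rfl fun v _ => ?_
    by_cases huv : u = v
    · simp [huv]
    · simp only [if_neg huv]
      unfold avg
      field_simp
  have h2 : ∑ g ∈ Gam T, (2 * pw y (K.map g.toEmbedding)) ≤ ∑ g ∈ Gam T, (4 : ℝ) :=
    Finset.sum_le_sum fun g hg => by
      have := hy _ (isCl_map hg hK)
      linarith
  rw [Finset.sum_const, nsmul_eq_mul] at h2
  rw [← h1] at h2
  have h3 : (2 * ((Gam T).card : ℝ)) * pw (avg T y) K ≤ (2 * ((Gam T).card : ℝ)) * 2 := by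
    linarith
  exact le_of_mul_le_mul_left h3 (by linarith)

theorem tot_avg (T : Fin D → Finset (Fin k)) (y : Fin D → Fin D → ℝ) :
    tot (tg T) (avg T y) = tot (tg T) y := by
  have hc := card_Gam_pos T
  have e0 : ∀ g ∈ Gam T, ∑ u, ∑ v, (if (tg T).Adj u v then y (g u) (g v) else 0)
      = tot (tg T) y := by
    intro g hg
    unfold tot
    rw [← Equiv.sum_comp g (fun u => ∑ v, if (tg T).Adj u v then y u v else 0)]
    refine Finset.sum_congr rfl fun u _ => ?_
    rw [← Equiv.sum_comp g (fun v => if (tg T).Adj (g u) v then y (g u) v else 0)]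
    refine Finset.sum_congr rfl fun v _ => ?_
    simp only [adj_Gam hg]
  have e0' : ∀ g ∈ Gam T, ∑ u, ∑ v, (if (tg T).Adj u v then y (g v) (g u) else 0)
      = tot (tg T) y := by
    intro g hg
    rw [← e0 g hg, Finset.sum_comm]
    refine Finset.sum_congr rfl fun u _ => Finset.sum_congr rfl fun v _ => ?_
    simp only [(tg T).adj_comm v u]
  have h1 : (2 * ((Gam T).card : ℝ)) * tot (tg T) (avg T y)
      = ∑ g ∈ Gam T, (2 * tot (tg T) y) := by
    have e1 : ∀ g ∈ Gam T, 2 * tot (tg T) y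
        = ∑ u, ∑ v, (if (tg T).Adj u v then (y (g u) (g v) + y (g v) (g u)) else 0) := by
      intro g hg
      rw [two_mul]
      nth_rw 1 [← e0 g hg]
      rw [← e0' g hg, ← Finset.sum_add_distrib]
      refine Finset.sum_congr rfl fun u _ => ?_
      rw [← Finset.sum_add_distrib]
      refine Finset.sum_congr rfl fun v _ => ?_
      split_ifs <;> simp
    rw [Finset.sum_congr rfl e1, Finset.sum_comm]
    nth_rw 1 [tot]
    rw [Finset.mul_sum]
    refine Finset.sum_congr rfl fun u _ => ?_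
    rw [Finset.mul_sum, Finset.sum_comm]
    refine Finset.sum_congr rfl fun v _ => ?_
    by_cases huv : (tg T).Adj u v
    · simp only [if_pos huv]
      unfold avg
      field_simp
    · simp [huv]
  rw [Finset.sum_const, nsmul_eq_mul] at h1
  have h3 : (2 * ((Gam T).card : ℝ)) * tot (tg T) (avg T y)
      = (2 * ((Gam T).card : ℝ)) * tot (tg T) y := by
    rw [h1]; ring
  exact mul_left_cancel₀ (by positivity) h3

theorem exists_Gam (T : Fin D → Finset (Fin k)) {u v u' v' : Fin D} (huv : u ≠ v)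
    (huv' : u' ≠ v') (hu : T u = T u') (hv : T v = T v') :
    ∃ h ∈ Gam T, h u = u' ∧ h v = v' := by
  have hswap : ∀ a b x, T a = T b → T (Equiv.swap a b x) = T x := by
    intro a b x hab
    rcases eq_or_ne x a with h | h
    · rw [h, Equiv.swap_apply_left, hab]
    · rcases eq_or_ne x b with h' | h'
      · rw [h', Equiv.swap_apply_right, hab]
      · rw [Equiv.swap_apply_of_ne_of_ne h h']
  set w := Equiv.swap u u' v with hw
  have hwu : w ≠ u' := by
    intro h
    have h1 : Equiv.swap u u' v = Equiv.swap u u' u := by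
      rw [Equiv.swap_apply_left, ← hw, h]
    exact huv ((Equiv.swap u u').injective h1).symm
  have hTw : T w = T v' := by rw [hw, hswap _ _ _ hu, hv]
  refine ⟨Equiv.swap w v' * Equiv.swap u u', ?_, ?_, ?_⟩
  · rw [mem_Gam]
    intro x
    rw [Equiv.Perm.mul_apply, hswap _ _ _ hTw, hswap _ _ _ hu]
  · rw [Equiv.Perm.mul_apply, Equiv.swap_apply_left,
      Equiv.swap_apply_of_ne_of_ne (Ne.symm hwu) huv']
  · rw [Equiv.Perm.mul_apply, ← hw, Equiv.swap_apply_left]

/-- the kernel on types -/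
theorem exists_eta (T : Fin D → Finset (Fin k)) (y : Fin D → Fin D → ℝ) :
    ∃ η : Finset (Fin k) → Finset (Fin k) → ℝ, (∀ A B, η A B = η B A) ∧
      (∀ u v, u ≠ v → η (T u) (T v) = avg T y u v) ∧
      (∀ A B, η A B ≠ 0 → ∃ u v, u ≠ v ∧ T u = A ∧ T v = B) := by
  classical
  let η : Finset (Fin k) → Finset (Fin k) → ℝ := fun A B =>
    if h : ∃ p : Fin D × Fin D, p.1 ≠ p.2 ∧ T p.1 = A ∧ T p.2 = B then
      avg T y h.choose.1 h.choose.2 else 0
  have key : ∀ u v, u ≠ v → η (T u) (T v) = avg T y u v := by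
    intro u v huv
    have h : ∃ p : Fin D × Fin D, p.1 ≠ p.2 ∧ T p.1 = T u ∧ T p.2 = T v := ⟨(u, v), huv, rfl, rfl⟩
    simp only [η]
    rw [dif_pos h]
    obtain ⟨h1, h2, h3⟩ := h.choose_spec
    obtain ⟨g, hg, hgu, hgv⟩ := exists_Gam T huv h1 h2.symm h3.symm
    have := avg_inv T y hg u v
    rw [hgu, hgv] at this
    exact this
  have hne : ∀ A B, η A B ≠ 0 → ∃ u v, u ≠ v ∧ T u = A ∧ T v = B := by
    intro A B h
    by_contra hcon
    apply h
    simp only [η]
    rw [dif_neg]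
    rintro ⟨p, h1, h2, h3⟩
    exact hcon ⟨p.1, p.2, h1, h2, h3⟩
  refine ⟨η, ?_, key, hne⟩
  intro A B
  by_cases hA : η A B = 0
  · by_cases hB : η B A = 0
    · rw [hA, hB]
    · obtain ⟨u, v, huv, rfl, rfl⟩ := hne _ _ hB
      rw [key u v huv, key v u huv.symm, avg_sym]
  · obtain ⟨u, v, huv, rfl, rfl⟩ := hne _ _ hA
    rw [key u v huv, key v u huv.symm, avg_sym]

end Pool.Agent.H69.CPR
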