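import Mathlib
import Pool.Agent.H69.CPR.Avg

/-!
# Dual kernels on types
-/

open Finset

namespace Pool.Agent.H69.CPR

open Pool.Agent.H29.CPR

variable {D k : ℕ}

/-- A dual kernel on the types: feasible on every clique of vertices. -/
structure TK (T : Fin D → Finset (Fin k)) (Y : Finset (Fin k) → Finset (Fin k) → ℝ) : Prop where
  sym : ∀ A B, Y A B = Y B A
  diag : ∀ A, Y A A ≤ 0
  adj : ∀ A B, ¬ (A ∩ B).Nonempty → Y A B = 0
  cl : ∀ K, IsCl (tg T) K → pw (fun u v => Y (T u) (T v)) K ≤ 2
  ex : ∀ A B, A ≠ B → Y A B ≠ 0 → ∃ u, T u = A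

/-- number of vertices of a type -/
def cnt (T : Fin D → Finset (Fin k)) (A : Finset (Fin k)) : ℕ :=
  (univ.filter fun u => T u = A).card

/-- the mass of a type: the number of its vertices minus one -/
noncomputable def mass (T : Fin D → Finset (Fin k)) (A : Finset (Fin k)) : ℝ :=
  ((cnt T A - 1 : ℕ) : ℝ)

theorem mass_nonneg (T : Fin D → Finset (Fin k)) (A : Finset (Fin k)) : 0 ≤ mass T A :=
  Nat.cast_nonneg _

theorem sum_types (T : Fin D → Finset (Fin k)) (f : Finset (Fin k) → ℝ) :
    ∑ u, f (T u) = ∑ A, (cnt T A : ℝ) * f A := by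
  rw [← Finset.sum_fiberwise univ T (fun u => f (T u))]
  refine Finset.sum_congr rfl fun A _ => ?_
  have : ∀ u ∈ univ.filter (fun u => T u = A), f (T u) = f A := by
    intro u hu
    rw [(Finset.mem_filter.1 hu).2]
  rw [Finset.sum_congr rfl this, Finset.sum_const, nsmul_eq_mul]
  rfl

theorem sum_cnt (T : Fin D → Finset (Fin k)) : ∑ A, (cnt T A : ℝ) = D := by
  have := sum_types T (fun _ => 1)
  simp only [Finset.sum_const, Finset.card_univ, Fintype.card_fin, mul_one, nsmul_eq_mul] at this
  exact this.symm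

theorem sum_types2 (T : Fin D → Finset (Fin k)) (f : Finset (Fin k) → Finset (Fin k) → ℝ) :
    ∑ u, ∑ v, f (T u) (T v) = ∑ A, ∑ B, (cnt T A : ℝ) * (cnt T B : ℝ) * f A B := by
  have h1 : ∀ u, ∑ v, f (T u) (T v) = ∑ B, (cnt T B : ℝ) * f (T u) B := fun u =>
    sum_types T (fun B => f (T u) B)
  rw [Finset.sum_congr rfl fun u _ => h1 u]
  rw [sum_types T (fun A => ∑ B, (cnt T B : ℝ) * f A B)]
  refine Finset.sum_congr rfl fun A _ => ?_
  rw [Finset.mul_sum]
  exact Finset.sum_congr rfl fun B _ => by ring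

/-- The sum over the pairs of distinct vertices. -/
theorem sum_types_ne (T : Fin D → Finset (Fin k)) (f : Finset (Fin k) → Finset (Fin k) → ℝ) :
    ∑ u, ∑ v, (if u = v then 0 else f (T u) (T v))
      = ∑ A, ∑ B, (cnt T A : ℝ) * (cnt T B : ℝ) * f A B - ∑ A, (cnt T A : ℝ) * f A A := by
  rw [← sum_types2, ← sum_types T (fun A => f A A), ← Finset.sum_sub_distrib]
  refine Finset.sum_congr rfl fun u _ => ?_
  have : ∀ v, (if u = v then 0 else f (T u) (T v))
      = f (T u) (T v) - (if u = v then f (T u) (T v) else 0) := by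
    intro v
    split_ifs <;> simp
  rw [Finset.sum_congr rfl fun v _ => this v, Finset.sum_sub_distrib, Finset.sum_ite_eq]
  simp

section small

variable {V : Type} [DecidableEq V] (z : V → V → ℝ) (hz : ∀ u v, z u v = z v u)

include hz

theorem pw_pair {u v : V} (h : u ≠ v) : pw z {u, v} = 2 * z u v := by
  unfold pw
  rw [Finset.sum_pair h, Finset.sum_pair h, Finset.sum_pair h]
  simp only [if_true, if_neg h, if_neg h.symm]
  rw [hz v u]
  ring

theorem pw_three {u v w : V} (n1 : u ≠ v) (n2 : u ≠ w) (n3 : v ≠ w) :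
    pw z {u, v, w} = 2 * (z u v + z u w + z v w) := by
  unfold pw
  have m1 : u ∉ ({v, w} : Finset V) := by simp [n1, n2]
  have m2 : v ∉ ({w} : Finset V) := by simp [n3]
  rw [Finset.sum_insert m1, Finset.sum_insert m2, Finset.sum_singleton,
    Finset.sum_insert m1, Finset.sum_insert m2, Finset.sum_singleton,
    Finset.sum_insert m1, Finset.sum_insert m2, Finset.sum_singleton,
    Finset.sum_insert m1, Finset.sum_insert m2, Finset.sum_singleton]
  simp only [if_true, if_neg n1, if_neg n2, if_neg n3, if_neg n1.symm, if_neg n2.symm,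
    if_neg n3.symm]
  rw [hz v u, hz w u, hz w v]
  ring

theorem pw_four {a b c d : V} (n1 : a ≠ b) (n2 : a ≠ c) (n3 : a ≠ d) (n4 : b ≠ c) (n5 : b ≠ d)
    (n6 : c ≠ d) :
    pw z {a, b, c, d} = 2 * (z a b + z c d + z a c + z a d + z b c + z b d) := by
  unfold pw
  have m1 : a ∉ ({b, c, d} : Finset V) := by simp [n1, n2, n3]
  have m2 : b ∉ ({c, d} : Finset V) := by simp [n4, n5]
  have m3 : c ∉ ({d} : Finset V) := by simp [n6]
  simp only [Finset.sum_insert m1, Finset.sum_insert m2, Finset.sum_insert m3,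
    Finset.sum_singleton, if_true, if_neg n1, if_neg n2, if_neg n3, if_neg n4, if_neg n5,
    if_neg n6, if_neg n1.symm, if_neg n2.symm, if_neg n3.symm, if_neg n4.symm, if_neg n5.symm,
    if_neg n6.symm]
  rw [hz b a, hz c a, hz d a, hz c b, hz d b, hz d c]
  ring

end small

namespace TK

variable {T : Fin D → Finset (Fin k)} {Y : Finset (Fin k) → Finset (Fin k) → ℝ} (hY : TK T Y)

include hY

/-- The restriction of `Y` to a clique of types of multiplicity at least two is a `Ker`. -/
theorem ker (C : Finset (Finset (Fin k))) (hC : ∀ A ∈ C, ∀ B ∈ C, (A ∩ B).Nonempty)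
    (hcnt : ∀ A ∈ C, 2 ≤ cnt T A) :
    Ker (fun A B => if A ∈ C ∧ B ∈ C then Y A B else -1) := by
  classical
  have hch : ∀ A ∈ C, ∃ u v : Fin D, u ≠ v ∧ T u = A ∧ T v = A := by
    intro A hA
    have h1 : 1 < (univ.filter fun u => T u = A).card := hcnt A hA
    obtain ⟨u, hu, v, hv, huv⟩ := Finset.one_lt_card.1 h1
    rw [Finset.mem_filter] at hu hv
    exact ⟨u, v, huv, hu.2, hv.2⟩
  choose v1 v2 hne h1 h2 using hch
  have hzs : ∀ u v : Fin D, Y (T u) (T v) = Y (T v) (T u) := fun u v => hY.sym _ _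
  have hcl : ∀ K : Finset (Fin D), (∀ u ∈ K, T u ∈ C) →
      pw (fun u v => Y (T u) (T v)) K ≤ 2 := by
    intro K hK
    apply hY.cl
    intro u hu v hv huv
    exact ⟨huv, hC _ (hK u hu) _ (hK v hv)⟩
  have h11 : ∀ A (hA : A ∈ C) B (hB : B ∈ C), A ≠ B → v1 A hA ≠ v1 B hB := by
    intro A hA B hB hAB h
    apply hAB
    rw [← h1 A hA, h, h1 B hB]
  have h22 : ∀ A (hA : A ∈ C) B (hB : B ∈ C), A ≠ B → v2 A hA ≠ v2 B hB := by
    intro A hA B hB hAB h
    apply hAB
    rw [← h2 A hA, h, h2 B hB]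
  have h12 : ∀ A (hA : A ∈ C) B (hB : B ∈ C), v1 A hA ≠ v2 B hB := by
    intro A hA B hB h
    by_cases hAB : A = B
    · subst hAB
      exact hne A hA h
    · apply hAB
      rw [← h1 A hA, h, h2 B hB]
  have hpair : ∀ A ∈ C, ∀ B ∈ C, Y A B ≤ 1 := by
    intro A hA B hB
    by_cases hAB : A = B
    · rw [← hAB]
      linarith [hY.diag A]
    · have h := hcl {v1 A hA, v1 B hB} (by
        intro u hu
        simp only [Finset.mem_insert, Finset.mem_singleton] at hu
        rcases hu with rfl | rfl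
        · rw [h1]; exact hA
        · rw [h1]; exact hB)
      rw [pw_pair _ hzs (h11 A hA B hB hAB)] at h
      simp only [h1] at h
      linarith
  have htri : ∀ A ∈ C, ∀ B ∈ C, ∀ X ∈ C, Y A B + Y A X + Y B X ≤ 1 := by
    intro A hA B hB X hX
    by_cases hAB : A = B
    · subst hAB
      by_cases hAX : A = X
      · subst hAX
        linarith [hY.diag A]
      · have h := hcl {v1 A hA, v2 A hA, v1 X hX} (by
          intro u hu
          simp only [Finset.mem_insert, Finset.mem_singleton] at hu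
          rcases hu with rfl | rfl | rfl
          · rw [h1]; exact hA
          · rw [h2]; exact hA
          · rw [h1]; exact hX)
        rw [pw_three _ hzs (h12 A hA A hA) (h11 A hA X hX hAX)
          (h12 X hX A hA).symm] at h
        simp only [h1, h2] at h
        linarith
    · have h := hcl {v1 A hA, v1 B hB, v2 X hX} (by
        intro u hu
        simp only [Finset.mem_insert, Finset.mem_singleton] at hu
        rcases hu with rfl | rfl | rfl
        · rw [h1]; exact hA
        · rw [h1]; exact hB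
        · rw [h2]; exact hX)
      rw [pw_three _ hzs (h11 A hA B hB hAB) (h12 A hA X hX) (h12 B hB X hX)] at h
      simp only [h1, h2] at h
      linarith
  have hfour : ∀ A ∈ C, ∀ B ∈ C, ∀ E ∈ C, ∀ F ∈ C, A ≠ B → E ≠ F →
      Y A B + Y E F + Y A E + Y A F + Y B E + Y B F ≤ 1 := by
    intro A hA B hB E hE F hF hAB hEF
    have h := hcl {v1 A hA, v1 B hB, v2 E hE, v2 F hF} (by
        intro u hu
        simp only [Finset.mem_insert, Finset.mem_singleton] at hu
        rcases hu with rfl | rfl | rfl | rfl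
        · rw [h1]; exact hA
        · rw [h1]; exact hB
        · rw [h2]; exact hE
        · rw [h2]; exact hF)
    rw [pw_four _ hzs (h11 A hA B hB hAB) (h12 A hA E hE) (h12 A hA F hF) (h12 B hB E hE)
      (h12 B hB F hF) (h22 E hE F hF hEF)] at h
    simp only [h1, h2] at h
    linarith
  have f2 : ∀ A B, (if A ∈ C ∧ B ∈ C then Y A B else -1) ≤ 1 := by
    intro A B
    split_ifs with h
    · exact hpair A h.1 B h.2
    · norm_num
  refine ⟨?_, ?_, f2, ?_, ?_⟩
  · intro A B
    by_cases h : A ∈ C ∧ B ∈ C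
    · rw [if_pos h, if_pos h.symm, hY.sym]
    · rw [if_neg h, if_neg (fun h' => h h'.symm)]
  · intro A
    split_ifs
    · exact hY.diag A
    · norm_num
  · intro A B X
    by_cases hA : A ∈ C
    · by_cases hB : B ∈ C
      · by_cases hX : X ∈ C
        · rw [if_pos ⟨hA, hB⟩, if_pos ⟨hA, hX⟩, if_pos ⟨hB, hX⟩]
          exact htri A hA B hB X hX
        · rw [if_neg (fun h : A ∈ C ∧ X ∈ C => hX h.2), if_neg (fun h : B ∈ C ∧ X ∈ C => hX h.2)]
          have := f2 A B
          linarith
      · rw [if_neg (fun h : A ∈ C ∧ B ∈ C => hB h.2), if_neg (fun h : B ∈ C ∧ X ∈ C => hB h.1)]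
        have := f2 A X
        linarith
    · rw [if_neg (fun h : A ∈ C ∧ B ∈ C => hA h.1), if_neg (fun h : A ∈ C ∧ X ∈ C => hA h.1)]
      have := f2 B X
      linarith
  · intro A B E F hAB hEF
    have hAB' : A ∈ C ∧ B ∈ C := by
      by_contra h
      rw [if_neg h] at hAB
      norm_num at hAB
    have hEF' : E ∈ C ∧ F ∈ C := by
      by_contra h
      rw [if_neg h] at hEF
      norm_num at hEF
    rw [if_pos hAB'] at hAB
    rw [if_pos hEF'] at hEF
    have n1 : A ≠ B := by
      rintro rfl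
      linarith [hY.diag A]
    have n2 : E ≠ F := by
      rintro rfl
      linarith [hY.diag E]
    rw [if_pos hAB', if_pos hEF', if_pos ⟨hAB'.1, hEF'.1⟩, if_pos ⟨hAB'.1, hEF'.2⟩,
      if_pos ⟨hAB'.2, hEF'.1⟩, if_pos ⟨hAB'.2, hEF'.2⟩]
    exact hfour A hAB'.1 B hAB'.2 E hEF'.1 F hEF'.2 n1 n2

omit hY in
theorem qf_congr' {M M' : Finset (Fin k) → Finset (Fin k) → ℝ} {w : Finset (Fin k) → ℝ}
    (h : ∀ A B, w A ≠ 0 → w B ≠ 0 → M A B = M' A B) : qf M w = qf M' w := by
  unfold qf
  refine Finset.sum_congr rfl fun A _ => Finset.sum_congr rfl fun B _ => ?_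
  by_cases hA : w A = 0
  · rw [hA]; ring
  · by_cases hB : w B = 0
    · rw [hB]; ring
    · rw [h A B hA hB]

/-- **The local inequality at the level of types.** -/
theorem lin (C : Finset (Finset (Fin k))) (hC : ∀ A ∈ C, ∀ B ∈ C, (A ∩ B).Nonempty)
    (w : Finset (Fin k) → ℝ) (hw0 : ∀ A, 0 ≤ w A) (hw : ∀ A, w A ≠ 0 → A ∈ C ∧ 2 ≤ cnt T A) :
    qf (fun A B => rho Y A B + srho Y A B) w ≤ √2 * qf (neg Y) w := by
  classical
  set C' := C.filter (fun A => 2 ≤ cnt T A) with hC'
  have hker := hY.ker C' (fun A hA B hB => hC A (Finset.mem_filter.1 hA).1 B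
    (Finset.mem_filter.1 hB).1) (fun A hA => (Finset.mem_filter.1 hA).2)
  have h := hker.linplus hw0
  have hmem : ∀ A, w A ≠ 0 → A ∈ C' := fun A hA => Finset.mem_filter.2 (hw A hA)
  have e1 : qf (fun A B => rho (fun A B => if A ∈ C' ∧ B ∈ C' then Y A B else -1) A B
      + srho (fun A B => if A ∈ C' ∧ B ∈ C' then Y A B else -1) A B) w
      = qf (fun A B => rho Y A B + srho Y A B) w := by
    apply qf_congr'
    intro A B hA hB
    unfold srho rho
    simp only [if_pos (⟨hmem A hA, hmem B hB⟩ : A ∈ C' ∧ B ∈ C')]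
  have e2 : qf (neg (fun A B => if A ∈ C' ∧ B ∈ C' then Y A B else -1)) w = qf (neg Y) w := by
    apply qf_congr'
    intro A B hA hB
    unfold neg
    simp only [if_pos (⟨hmem A hA, hmem B hB⟩ : A ∈ C' ∧ B ∈ C')]
  rw [e1, e2] at h
  exact h

/-- **Large cliques.** -/
theorem big (C : Finset (Finset (Fin k))) (hC : ∀ A ∈ C, ∀ B ∈ C, (A ∩ B).Nonempty)
    (φ : Finset (Fin k) → ℝ) (h0 : ∀ A, 0 ≤ φ A) (h1 : ∀ A, φ A ≤ 1) (hφ : ∀ A, A ∉ C → φ A = 0) :
    qf Y (fun A => φ A * mass T A) ≤ 2 := by
  classical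
  set q : Finset (Fin k) → ℝ := fun A => φ A * (mass T A / cnt T A) with hq
  have hmn : ∀ A, mass T A ≤ cnt T A := by
    intro A
    unfold mass
    exact_mod_cast Nat.sub_le _ _
  have hcnt0 : ∀ A, (0 : ℝ) ≤ cnt T A := fun A => Nat.cast_nonneg _
  have hq0 : ∀ A, 0 ≤ q A := fun A =>
    mul_nonneg (h0 A) (div_nonneg (mass_nonneg T A) (hcnt0 A))
  have hq1 : ∀ A, q A ≤ 1 := by
    intro A
    have h2 : mass T A / cnt T A ≤ 1 := div_le_one_of_le₀ (hmn A) (hcnt0 A)
    have h3 : 0 ≤ mass T A / cnt T A := div_nonneg (mass_nonneg T A) (hcnt0 A)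
    calc q A ≤ 1 * 1 := mul_le_mul (h1 A) h2 h3 zero_le_one
      _ = 1 := one_mul 1
  have hcq : ∀ A, (cnt T A : ℝ) * q A = φ A * mass T A := by
    intro A
    simp only [hq]
    by_cases h : (cnt T A : ℝ) = 0
    · have h' : cnt T A = 0 := by exact_mod_cast h
      have : mass T A = 0 := by
        unfold mass
        rw [h']
        simp
      rw [this]
      simp
    · field_simp
  have hmaf := maf_le (fun u v => Y (T u) (T v)) (univ.filter fun u => T u ∈ C) 2
    (fun K hK => hY.cl K (by
      intro u hu v hv huv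
      have h2 := hK hu
      have h3 := hK hv
      rw [Finset.mem_filter] at h2 h3
      exact ⟨huv, hC _ h2.2 _ h3.2⟩)) (fun u => q (T u)) (fun u _ => ⟨hq0 _, hq1 _⟩)
  have e1 : maf (fun u v => Y (T u) (T v)) (univ.filter fun u => T u ∈ C) (fun u => q (T u))
      = ∑ u, ∑ v, (if u = v then 0 else q (T u) * q (T v) * Y (T u) (T v)) := by
    unfold maf
    rw [Finset.sum_filter]
    refine Finset.sum_congr rfl fun u _ => ?_
    by_cases hu : T u ∈ C
    · rw [if_pos hu, Finset.sum_filter]
      refine Finset.sum_congr rfl fun v _ => ?_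
      by_cases hv : T v ∈ C
      · rw [if_pos hv]
      · rw [if_neg hv]
        have : q (T v) = 0 := by simp only [hq]; rw [hφ _ hv]; ring
        rw [this]
        simp
    · rw [if_neg hu]
      have : q (T u) = 0 := by simp only [hq]; rw [hφ _ hu]; ring
      rw [this]
      simp
  rw [e1, sum_types_ne T (fun A B => q A * q B * Y A B)] at hmaf
  have e2 : ∑ A, ∑ B, (cnt T A : ℝ) * (cnt T B : ℝ) * (q A * q B * Y A B)
      = qf Y (fun A => φ A * mass T A) := by
    unfold qf
    refine Finset.sum_congr rfl fun A _ => Finset.sum_congr rfl fun B _ => ?_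
    show _ = Y A B * ((φ A * mass T A) * (φ B * mass T B))
    rw [← hcq A, ← hcq B]
    ring
  rw [e2] at hmaf
  have e3 : ∑ A, (cnt T A : ℝ) * (q A * q A * Y A A) ≤ 0 := by
    apply Finset.sum_nonpos
    intro A _
    apply mul_nonpos_of_nonneg_of_nonpos (hcnt0 A)
    exact mul_nonpos_of_nonneg_of_nonpos (mul_nonneg (hq0 A) (hq0 A)) (hY.diag A)
  linarith

/-- **Motzkin-Straus.** -/
theorem ms (w : Finset (Fin k) → ℝ) (hw0 : ∀ A, 0 ≤ w A) :
    qf (fun A B => min 1 (2 * pos Y A B)) w ≤ (∑ A, w A) ^ 2 / 2 := by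
  classical
  apply kappa_ms
  · intro A B
    have : pos Y A B = pos Y B A := by unfold pos; rw [hY.sym]
    rw [this]
  · intro A
    have : pos Y A A = 0 := max_eq_right (hY.diag A)
    rw [this]
    simp
  · intro A B
    have := pos_nonneg Y A B
    exact le_min zero_le_one (by linarith)
  · intro A B
    exact min_le_left _ _
  · intro S hS
    have hS' : ∀ A ∈ S, ∀ B ∈ S, A ≠ B → 0 < Y A B := by
      intro A hA B hB hAB
      have h := hS A hA B hB hAB
      by_contra hcon
      push Not at hcon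
      have : pos Y A B = 0 := max_eq_right hcon
      rw [this] at h
      simp at h
    by_cases hex : ∃ A ∈ S, ∃ B ∈ S, A ≠ B
    · have hch : ∀ A ∈ S, ∃ u, T u = A := by
        intro A hA
        obtain ⟨E, hE, F, hF, hEF⟩ := hex
        by_cases hAE : A = E
        · subst hAE
          exact hY.ex A F hEF (hS' A hA F hF hEF).ne'
        · exact hY.ex A E hAE (hS' A hA E hE hAE).ne'
      have : Nonempty (Fin D) := by
        obtain ⟨E, hE, -⟩ := hex
        obtain ⟨u, -⟩ := hch E hE
        exact ⟨u⟩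
      choose! r hr using fun A => hch A
      have hinj : ∀ A ∈ S, ∀ B ∈ S, r A = r B → A = B := by
        intro A hA B hB h
        rw [← hr A hA, ← hr B hB, h]
      have h := hY.cl (S.image r) (by
        intro u hu v hv huv
        rw [Finset.mem_image] at hu hv
        obtain ⟨A, hA, rfl⟩ := hu
        obtain ⟨B, hB, rfl⟩ := hv
        have hAB : A ≠ B := fun h => huv (by rw [h])
        refine ⟨huv, ?_⟩
        rw [hr A hA, hr B hB]
        by_contra hcon
        have h2 := hY.adj A B hcon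
        have h3 := hS' A hA B hB hAB
        linarith)
      have e1 : pw (fun u v => Y (T u) (T v)) (S.image r)
          = ∑ A ∈ S, ∑ B ∈ S, (if A = B then 0 else Y A B) := by
        unfold pw
        rw [Finset.sum_image (fun A hA B hB h => hinj A hA B hB h)]
        refine Finset.sum_congr rfl fun A hA => ?_
        rw [Finset.sum_image (fun A hA B hB h => hinj A hA B hB h)]
        refine Finset.sum_congr rfl fun B hB => ?_
        show (if r A = r B then 0 else Y (T (r A)) (T (r B))) = _
        rw [hr A hA, hr B hB]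
        by_cases hAB : A = B
        · simp [hAB]
        · rw [if_neg hAB, if_neg (fun h => hAB (hinj A hA B hB h))]
      rw [e1] at h
      have h2 : ∑ A ∈ S, ∑ B ∈ S, min 1 (2 * pos Y A B)
          ≤ ∑ A ∈ S, ∑ B ∈ S, 2 * (if A = B then 0 else Y A B) := by
        refine Finset.sum_le_sum fun A hA => Finset.sum_le_sum fun B hB => ?_
        by_cases hAB : A = B
        · subst hAB
          have : pos Y A A = 0 := max_eq_right (hY.diag A)
          rw [this]
          simp
        · rw [if_neg hAB]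
          have : pos Y A B = Y A B := max_eq_left (hS' A hA B hB hAB).le
          rw [this]
          exact min_le_right _ _
      simp only [← Finset.mul_sum] at h2
      linarith
    · push Not at hex
      have h0 : ∑ A ∈ S, ∑ B ∈ S, min 1 (2 * pos Y A B) = 0 := by
        refine Finset.sum_eq_zero fun A hA => Finset.sum_eq_zero fun B hB => ?_
        rw [← hex A hA B hB]
        have : pos Y A A = 0 := max_eq_right (hY.diag A)
        rw [this]
        simp
      rw [h0]
      norm_num
  · exact hw0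

end TK

end Pool.Agent.H69.CPR
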