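import Mathlib
import Pool.Agent.H69.CPR.Types

/-!
# From a dual weighting of the vertices to a dual kernel on types
-/

open Finset

namespace Pool.Agent.H69.CPR

open Pool.Agent.H29.CPR

variable {D k : ℕ}

theorem diag_est {n : ℕ} {e : ℝ} (h : (n : ℝ) * n * e - n * e ≤ 2) :
    (n : ℝ) * n * e - n * e ≤ min e 0 * (((n - 1 : ℕ) : ℝ) * ((n - 1 : ℕ) : ℝ)) + (n + n) := by
  rcases Nat.eq_zero_or_pos n with hn | hn
  · subst hn
    simp
  · have hcast : ((n - 1 : ℕ) : ℝ) = n - 1 := by
      rw [Nat.cast_sub hn]
      simp
    have h1 : (1 : ℝ) ≤ n := by exact_mod_cast hn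
    rw [hcast]
    rcases le_total e 0 with he | he
    · rw [min_eq_left he]
      nlinarith
    · rw [min_eq_right he, zero_mul]
      linarith

theorem off_est {a b : ℕ} {e : ℝ} (h : 0 < a → 0 < b → e ≤ 1) :
    (a : ℝ) * b * e ≤ e * (((a - 1 : ℕ) : ℝ) * ((b - 1 : ℕ) : ℝ)) + (a + b) := by
  rcases Nat.eq_zero_or_pos a with ha | ha
  · subst ha
    simp
  rcases Nat.eq_zero_or_pos b with hb | hb
  · subst hb
    simp
  have hca : ((a - 1 : ℕ) : ℝ) = a - 1 := by
    rw [Nat.cast_sub ha]
    simp
  have hcb : ((b - 1 : ℕ) : ℝ) = b - 1 := by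
    rw [Nat.cast_sub hb]
    simp
  have h1 : (1 : ℝ) ≤ a := by exact_mod_cast ha
  have h2 : (1 : ℝ) ≤ b := by exact_mod_cast hb
  have he := h ha hb
  rw [hca, hcb]
  have h3 : e * ((a : ℝ) + b - 1) ≤ 1 * ((a : ℝ) + b - 1) :=
    mul_le_mul_of_nonneg_right he (by linarith)
  nlinarith

theorem exists_TK (T : Fin D → Finset (Fin k)) (y : Fin D → Fin D → ℝ)
    (hy : ∀ K, IsCl (tg T) K → pw y K ≤ 2) :
    ∃ Y, TK T Y ∧ tot (tg T) y ≤ qf Y (mass T) + 2 * 2 ^ k * D := by
  classical
  obtain ⟨η, hηs, hη, hηne⟩ := exists_eta T y
  set Y : Finset (Fin k) → Finset (Fin k) → ℝ := fun A B =>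
    if (A ∩ B).Nonempty then (if A = B then min (η A B) 0 else η A B) else 0 with hYdef
  have hpwavg := pw_avg T y hy
  have hle : ∀ u v, (tg T).Adj u v → Y (T u) (T v) ≤ avg T y u v := by
    intro u v huv
    rw [← hη u v huv.ne]
    simp only [hYdef]
    rw [if_pos huv.2]
    split_ifs with h
    · exact min_le_left _ _
    · exact le_rfl
  have hTK : TK T Y := by
    refine ⟨?_, ?_, ?_, ?_, ?_⟩
    · intro A B
      simp only [hYdef]
      rw [Finset.inter_comm B A, hηs B A]
      by_cases h : A = B
      · subst h; rfl
      · rw [if_neg h, if_neg (Ne.symm h)]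
    · intro A
      simp only [hYdef]
      split_ifs
      · exact min_le_right _ _
      · exact le_rfl
    · intro A B h
      simp only [hYdef]
      rw [if_neg h]
    · intro K hK
      refine le_trans ?_ (hpwavg K hK)
      unfold pw
      refine Finset.sum_le_sum fun u hu => Finset.sum_le_sum fun v hv => ?_
      by_cases huv : u = v
      · simp [huv]
      · rw [if_neg huv, if_neg huv]
        exact hle u v (hK u hu v hv huv)
    · intro A B hAB hne
      simp only [hYdef] at hne
      split_ifs at hne with h
      · obtain ⟨u, v, -, hu, -⟩ := hηne A B hne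
        exact ⟨u, hu⟩
      · exact absurd rfl hne
  refine ⟨Y, hTK, ?_⟩
  rw [← tot_avg T y]
  set F : Finset (Fin k) → Finset (Fin k) → ℝ := fun A B =>
    if (A ∩ B).Nonempty then η A B else 0 with hF
  have h1 : tot (tg T) (avg T y) = ∑ u, ∑ v, (if u = v then 0 else F (T u) (T v)) := by
    unfold tot
    refine Finset.sum_congr rfl fun u _ => Finset.sum_congr rfl fun v _ => ?_
    by_cases huv : u = v
    · rw [if_pos huv, if_neg]
      intro h
      exact h.ne huv
    · rw [if_neg huv]
      by_cases hadj : (T u ∩ T v).Nonempty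
      · have hA : (tg T).Adj u v := ⟨huv, hadj⟩
        rw [if_pos hA]
        simp only [hF]
        rw [if_pos hadj, hη u v huv]
      · rw [if_neg (fun h : (tg T).Adj u v => hadj h.2)]
        simp only [hF]
        rw [if_neg hadj]
  rw [h1, sum_types_ne]
  have h2 : ∑ A, ∑ B, (cnt T A : ℝ) * (cnt T B : ℝ) * F A B - ∑ A, (cnt T A : ℝ) * F A A
      = ∑ A, ∑ B, ((cnt T A : ℝ) * (cnt T B : ℝ) * F A B
        - (if A = B then (cnt T A : ℝ) * F A B else 0)) := by
    rw [← Finset.sum_sub_distrib]
    refine Finset.sum_congr rfl fun A _ => ?_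
    rw [Finset.sum_sub_distrib, Finset.sum_ite_eq]
    simp
  rw [h2]
  have h3 : ∀ A B, (cnt T A : ℝ) * (cnt T B : ℝ) * F A B
        - (if A = B then (cnt T A : ℝ) * F A B else 0)
      ≤ Y A B * (mass T A * mass T B) + ((cnt T A : ℝ) + cnt T B) := by
    intro A B
    by_cases hadj : (A ∩ B).Nonempty
    · by_cases hAB : A = B
      · subst hAB
        have f1 : F A A = η A A := if_pos hadj
        have f2 : Y A A = min (η A A) 0 := by
          simp only [hYdef]
          rw [if_pos hadj]
          simp
        rw [f1, f2, if_pos rfl]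
        apply diag_est
        -- the class of `A` is a clique
        have hcl := hpwavg (univ.filter fun u => T u = A) (by
          intro u hu v hv huv
          rw [Finset.mem_filter] at hu hv
          refine ⟨huv, ?_⟩
          rw [hu.2, hv.2]
          exact hadj)
        have e1 : pw (avg T y) (univ.filter fun u => T u = A)
            = ∑ u, ∑ v, (if u = v then 0 else (if T u = A ∧ T v = A then η (T u) (T v) else 0)) := by
          unfold pw
          rw [Finset.sum_filter]
          refine Finset.sum_congr rfl fun u _ => ?_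
          by_cases hu : T u = A
          · rw [if_pos hu, Finset.sum_filter]
            refine Finset.sum_congr rfl fun v _ => ?_
            by_cases huv : u = v
            · simp [huv]
            · by_cases hv : T v = A
              · rw [if_pos hv, if_neg huv, if_neg huv, if_pos (⟨hu, hv⟩ : T u = A ∧ T v = A),
                  hη u v huv]
              · rw [if_neg hv, if_neg huv, if_neg (fun h : T u = A ∧ T v = A => hv h.2)]
          · rw [if_neg hu]
            symm
            refine Finset.sum_eq_zero fun v _ => ?_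
            rw [if_neg (fun h : T u = A ∧ T v = A => hu h.1)]
            simp
        rw [e1, sum_types_ne T (fun E G => if E = A ∧ G = A then η E G else 0)] at hcl
        have e2 : ∑ E, ∑ G, (cnt T E : ℝ) * (cnt T G : ℝ) * (if E = A ∧ G = A then η E G else 0)
            = (cnt T A : ℝ) * (cnt T A : ℝ) * η A A := by
          rw [Finset.sum_eq_single A]
          · rw [Finset.sum_eq_single A]
            · simp
            · intro G _ hG
              simp [hG]
            · simp
          · intro E _ hE
            refine Finset.sum_eq_zero fun G _ => ?_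
            simp [hE]
          · simp
        have e3 : ∑ E, (cnt T E : ℝ) * (if E = A ∧ E = A then η E E else 0)
            = (cnt T A : ℝ) * η A A := by
          rw [Finset.sum_eq_single A]
          · simp
          · intro E _ hE
            simp [hE]
          · simp
        rw [e2, e3] at hcl
        exact hcl
      · simp only [hF, hYdef]
        rw [if_pos hadj, if_neg hAB, if_pos hadj, if_neg hAB, sub_zero]
        apply off_est
        intro hA hB
        obtain ⟨u, hu⟩ := Finset.card_pos.1 hA
        obtain ⟨v, hv⟩ := Finset.card_pos.1 hB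
        rw [Finset.mem_filter] at hu hv
        have huv : u ≠ v := by
          rintro rfl
          exact hAB (hu.2.symm.trans hv.2)
        have hcl := hpwavg {u, v} (by
          intro a ha b hb hab
          simp only [Finset.mem_insert, Finset.mem_singleton] at ha hb
          refine ⟨hab, ?_⟩
          rcases ha with rfl | rfl <;> rcases hb with rfl | rfl
          · exact absurd rfl hab
          · rw [hu.2, hv.2]; exact hadj
          · rw [hu.2, hv.2, Finset.inter_comm]; exact hadj
          · exact absurd rfl hab)
        rw [pw_pair _ (avg_sym T y) huv, ← hη u v huv, hu.2, hv.2] at hcl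
        linarith
    · simp only [hF, hYdef]
      rw [if_neg hadj, if_neg hadj]
      have : (0 : ℝ) ≤ (cnt T A : ℝ) + cnt T B := by positivity
      split_ifs <;> simpa using this
  have h4 : ∑ A, ∑ B, ((cnt T A : ℝ) * (cnt T B : ℝ) * F A B
        - (if A = B then (cnt T A : ℝ) * F A B else 0))
      ≤ ∑ A, ∑ B, (Y A B * (mass T A * mass T B) + ((cnt T A : ℝ) + cnt T B)) :=
    Finset.sum_le_sum fun A _ => Finset.sum_le_sum fun B _ => h3 A B
  refine h4.trans (le_of_eq ?_)
  simp only [Finset.sum_add_distrib]
  have h5 : ∑ A : Finset (Fin k), ∑ _B : Finset (Fin k), (cnt T A : ℝ) = 2 ^ k * D := by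
    simp only [Finset.sum_const, Finset.card_univ, Fintype.card_finset, Fintype.card_fin,
      nsmul_eq_mul]
    rw [← Finset.mul_sum, sum_cnt]
    push_cast
    ring
  have h6 : ∑ _A : Finset (Fin k), ∑ B : Finset (Fin k), (cnt T B : ℝ) = 2 ^ k * D := by
    rw [Finset.sum_comm, h5]
  rw [h5, h6]
  unfold qf
  ring

end Pool.Agent.H69.CPR
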