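import Mathlib
import Pool.Agent.H69.CPR.Reduce

/-!
# Combination of the local inequalities over a system of cliques
-/

open Finset

namespace Pool.Agent.H69.CPR

open Pool.Agent.H29.CPR

variable {D k : ℕ}

/-- A system of weighted cliques of types with overlap at least `c`. -/
structure Scheme (k : ℕ) (J : Type) [Fintype J] (c : ℝ) where
  /-- the weights -/
  φ : J → Finset (Fin k) → ℝ
  nonneg : ∀ j A, 0 ≤ φ j A
  supp : ∀ j A B, φ j A ≠ 0 → φ j B ≠ 0 → (A ∩ B).Nonempty
  sq : ∀ A, ∑ j, φ j A ^ 2 ≤ 1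
  ov : ∀ A B, A ≠ B → (A ∩ B).Nonempty → c ≤ ∑ j, φ j A * φ j B

namespace Scheme

variable {J : Type} [Fintype J] {c : ℝ} (S : Scheme k J c)

include S

theorem le_one (j : J) (A : Finset (Fin k)) : S.φ j A ≤ 1 := by
  have h1 : S.φ j A ^ 2 ≤ ∑ i, S.φ i A ^ 2 :=
    Finset.single_le_sum (f := fun i => S.φ i A ^ 2) (fun i _ => sq_nonneg _) (mem_univ j)
  have h2 := S.sq A
  have h3 := S.nonneg j A
  nlinarith

theorem ov_le_one (A B : Finset (Fin k)) : ∑ j, S.φ j A * S.φ j B ≤ 1 := by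
  have h1 : ∑ j, S.φ j A * S.φ j B ≤ ∑ j, (S.φ j A ^ 2 + S.φ j B ^ 2) / 2 :=
    Finset.sum_le_sum fun j _ => by nlinarith [sq_nonneg (S.φ j A - S.φ j B)]
  rw [← Finset.sum_div, Finset.sum_add_distrib] at h1
  have h2 := S.sq A
  have h3 := S.sq B
  linarith

/-- the clique of types carrying `φ j` -/
noncomputable def cliq (j : J) : Finset (Finset (Fin k)) :=
  univ.filter fun A => S.φ j A ≠ 0

theorem cliq_inter (j : J) : ∀ A ∈ S.cliq j, ∀ B ∈ S.cliq j, (A ∩ B).Nonempty := by
  intro A hA B hB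
  unfold cliq at hA hB
  rw [Finset.mem_filter] at hA hB
  exact S.supp j A B hA.2 hB.2

omit S in
theorem sum_qf (φ : J → Finset (Fin k) → ℝ) (M : Finset (Fin k) → Finset (Fin k) → ℝ)
    (w : Finset (Fin k) → ℝ) :
    ∑ j, qf M (fun A => φ j A * w A) = qf (fun A B => (∑ j, φ j A * φ j B) * M A B) w := by
  unfold qf
  rw [Finset.sum_comm]
  refine Finset.sum_congr rfl fun A _ => ?_
  rw [Finset.sum_comm]
  refine Finset.sum_congr rfl fun B _ => ?_
  show ∑ j, M A B * ((φ j A * w A) * (φ j B * w B))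
    = (∑ j, φ j A * φ j B) * M A B * (w A * w B)
  rw [Finset.sum_mul, Finset.sum_mul]
  exact Finset.sum_congr rfl fun j _ => by ring

theorem neg_ge {T : Fin D → Finset (Fin k)} {Y : Finset (Fin k) → Finset (Fin k) → ℝ} :
    ∑ j, qf (neg Y) (fun A => S.φ j A * mass T A) ≤ qf (neg Y) (mass T) := by
  rw [sum_qf]
  apply qf_mono _ _ _ (mass_nonneg T)
  intro A B
  have h1 := S.ov_le_one A B
  have h2 := neg_nonneg' Y A B
  nlinarith

omit S in
omit [Fintype J] in
theorem mass_two {T : Fin D → Finset (Fin k)} {A : Finset (Fin k)} (h : mass T A ≠ 0) :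
    2 ≤ cnt T A := by
  by_contra hcon
  apply h
  unfold mass
  have : cnt T A - 1 = 0 := by omega
  rw [this]
  simp

omit S in
omit [Fintype J] in
theorem Y_le_one {T : Fin D → Finset (Fin k)} {Y : Finset (Fin k) → Finset (Fin k) → ℝ}
    (hY : TK T Y) {A B : Finset (Fin k)} (hA : mass T A ≠ 0) (hB : mass T B ≠ 0) :
    Y A B ≤ 1 := by
  classical
  by_contra hcon
  push Not at hcon
  have hadj : (A ∩ B).Nonempty := by
    by_contra h
    rw [hY.adj A B h] at hcon
    linarith
  have hker := hY.ker {A, B} (by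
    intro E hE F hF
    simp only [Finset.mem_insert, Finset.mem_singleton] at hE hF
    have hAA : (A ∩ A).Nonempty := by
      rw [Finset.inter_self]; exact hadj.mono Finset.inter_subset_left
    have hBB : (B ∩ B).Nonempty := by
      rw [Finset.inter_self]; exact hadj.mono Finset.inter_subset_right
    have hBA : (B ∩ A).Nonempty := by rw [Finset.inter_comm]; exact hadj
    rcases hE with rfl | rfl <;> rcases hF with rfl | rfl <;> assumption) (by
    intro E hE
    simp only [Finset.mem_insert, Finset.mem_singleton] at hE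
    rcases hE with rfl | rfl
    · exact mass_two hA
    · exact mass_two hB)
  have h6 := hker.h2 A B
  rw [if_pos (by simp)] at h6
  linarith

omit S in
omit [Fintype J] in
theorem rho_le_srho' {Y : Finset (Fin k) → Finset (Fin k) → ℝ} {A B : Finset (Fin k)}
    (h : Y A B ≤ 1) : rho Y A B ≤ srho Y A B := by
  have h7 : rho Y A B ≤ 1 := by
    unfold rho
    exact max_le (by linarith) zero_le_one
  have h4 := rho_nonneg Y A B
  unfold srho
  apply Real.le_sqrt_of_sq_le
  nlinarith

/-- the local inequality for one clique -/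
theorem lin_j {T : Fin D → Finset (Fin k)} {Y : Finset (Fin k) → Finset (Fin k) → ℝ}
    (hY : TK T Y) (j : J) :
    qf (fun A B => rho Y A B + srho Y A B) (fun A => S.φ j A * mass T A)
      ≤ √2 * qf (neg Y) (fun A => S.φ j A * mass T A) := by
  classical
  refine hY.lin (S.cliq j) (S.cliq_inter j) _ (fun A => mul_nonneg (S.nonneg j A) (mass_nonneg T A)) ?_
  intro A hA
  refine ⟨?_, mass_two (fun h => hA (by rw [h, mul_zero]))⟩
  unfold cliq
  rw [Finset.mem_filter]
  exact ⟨mem_univ _, fun h => hA (by rw [h, zero_mul])⟩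

theorem big_j {T : Fin D → Finset (Fin k)} {Y : Finset (Fin k) → Finset (Fin k) → ℝ}
    (hY : TK T Y) (j : J) :
    qf (pos Y) (fun A => S.φ j A * mass T A) - 2
      ≤ qf (neg Y) (fun A => S.φ j A * mass T A) := by
  classical
  have h := hY.big (S.cliq j) (S.cliq_inter j) (S.φ j) (S.nonneg j) (S.le_one j) (by
    intro A hA
    unfold cliq at hA
    rw [Finset.mem_filter, not_and, not_not] at hA
    exact hA (mem_univ A))
  have h2 := qf_lin (pos Y) (neg Y) 1 (-1) (fun A => S.φ j A * mass T A)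
  rw [one_mul, neg_one_mul, ← sub_eq_add_neg] at h2
  have h3 : qf Y (fun A => S.φ j A * mass T A)
      = qf (fun a b => 1 * pos Y a b + -1 * neg Y a b) (fun A => S.φ j A * mass T A) := by
    congr 1
    funext A B
    rw [y_eq Y A B]
    ring
  rw [h3, h2] at h
  linarith

omit S in
omit [Fintype J] in
theorem qf_split (Y : Finset (Fin k) → Finset (Fin k) → ℝ) (w : Finset (Fin k) → ℝ) :
    qf Y w = qf (pos Y) w - qf (neg Y) w := by
  have h2 := qf_lin (pos Y) (neg Y) 1 (-1) w
  rw [one_mul, neg_one_mul, ← sub_eq_add_neg] at h2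
  rw [← h2]
  congr 1
  funext A B
  rw [y_eq Y A B]
  ring

omit S in
omit [Fintype J] in
/-- monotonicity of the quadratic form on the support -/
theorem qf_mono' (M M' : Finset (Fin k) → Finset (Fin k) → ℝ) (w : Finset (Fin k) → ℝ)
    (hw : ∀ A, 0 ≤ w A) (h : ∀ A B, w A ≠ 0 → w B ≠ 0 → M A B ≤ M' A B) :
    qf M w ≤ qf M' w := by
  unfold qf
  refine Finset.sum_le_sum fun A _ => Finset.sum_le_sum fun B _ => ?_
  by_cases hA : w A = 0
  · rw [hA]; simp
  by_cases hB : w B = 0
  · rw [hB]; simp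
  exact mul_le_mul_of_nonneg_right (h A B hA hB) (mul_nonneg (hw A) (hw B))

/-- **Combination.** -/
theorem combine {T : Fin D → Finset (Fin k)} {Y : Finset (Fin k) → Finset (Fin k) → ℝ}
    (hY : TK T Y) (hc0 : 0 ≤ c) {θ β : ℝ} (hθ0 : 0 ≤ θ) (hθ1 : θ ≤ 1) (hβ : 0 ≤ β)
    (h1 : (1 - (1 - θ) * c) / 2 ≤ β) (h2 : 1 - (1 - θ) * c - √2 * θ * c ≤ β) :
    qf Y (mass T) ≤ β * (D : ℝ) ^ 2 / 2 + 2 * Fintype.card J := by
  classical
  have hsq2 : √2 * √2 = 2 := Real.mul_self_sqrt (by norm_num)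
  have hsq0 : 0 < √2 := Real.sqrt_pos.2 (by norm_num)
  set w := mass T with hw
  have hw0 : ∀ A, 0 ≤ w A := mass_nonneg T
  set N : ℝ := ∑ j, qf (neg Y) (fun A => S.φ j A * w A) with hN
  have hNle : N ≤ qf (neg Y) w := S.neg_ge
  have hov : ∀ A B, 0 < Y A B → c ≤ ∑ j, S.φ j A * S.φ j B := by
    intro A B hAB
    apply S.ov
    · rintro rfl
      linarith [hY.diag A]
    · by_contra h
      rw [hY.adj A B h] at hAB
      exact lt_irrefl _ hAB
  -- LIN
  have hL : c * (√2 * qf (rho Y) w) ≤ N := by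
    have e1 : ∑ j, qf (fun A B => rho Y A B + srho Y A B) (fun A => S.φ j A * w A)
        ≤ √2 * N := by
      rw [hN, Finset.mul_sum]
      exact Finset.sum_le_sum fun j _ => S.lin_j hY j
    rw [sum_qf] at e1
    have e2 : qf (fun A B => (2 * c) * rho Y A B + 0 * rho Y A B) w
        ≤ qf (fun A B => (∑ j, S.φ j A * S.φ j B) * (rho Y A B + srho Y A B)) w := by
      apply qf_mono' _ _ _ hw0
      intro A B hA hB
      show 2 * c * rho Y A B + 0 * rho Y A B
        ≤ (∑ j, S.φ j A * S.φ j B) * (rho Y A B + srho Y A B)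
      by_cases hAB : 1 / 2 < Y A B
      · have h3 := hov A B (by linarith)
        have h4 := rho_nonneg Y A B
        have h5 : rho Y A B ≤ srho Y A B := rho_le_srho' (Y_le_one hY hA hB)
        nlinarith
      · rw [rho_of_ge hAB, srho_of_ge hAB]
        simp
    rw [qf_lin] at e2
    have e3 : 2 * c * qf (rho Y) w ≤ √2 * N := by linarith
    have e4 : √2 * (c * (√2 * qf (rho Y) w)) ≤ √2 * N := by
      have : √2 * (c * (√2 * qf (rho Y) w)) = (√2 * √2) * c * qf (rho Y) w := by ring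
      rw [this, hsq2]
      exact e3
    exact le_of_mul_le_mul_left e4 hsq0
  -- BIG
  have hB : c * qf (pos Y) w - 2 * Fintype.card J ≤ N := by
    have e1 : ∑ j, (qf (pos Y) (fun A => S.φ j A * w A) - 2) ≤ N :=
      Finset.sum_le_sum fun j _ => S.big_j hY j
    rw [Finset.sum_sub_distrib, sum_qf] at e1
    have e2 : qf (fun A B => c * pos Y A B + 0 * pos Y A B) w
        ≤ qf (fun A B => (∑ j, S.φ j A * S.φ j B) * pos Y A B) w := by
      apply qf_mono _ _ _ hw0
      intro A B
      by_cases hAB : 0 < Y A B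
      · have h3 := hov A B hAB
        have h4 := pos_nonneg Y A B
        nlinarith
      · have : pos Y A B = 0 := max_eq_right (not_lt.1 hAB)
        rw [this]
        simp
    rw [qf_lin] at e2
    simp only [Finset.sum_const, Finset.card_univ, nsmul_eq_mul] at e1
    linarith
  -- combination
  have hJ : (0 : ℝ) ≤ Fintype.card J := Nat.cast_nonneg _
  have hV : θ * (c * (√2 * qf (rho Y) w)) + (1 - θ) * (c * qf (pos Y) w - 2 * Fintype.card J)
      ≤ qf (neg Y) w := by
    have e1 := mul_le_mul_of_nonneg_left hL hθ0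
    have e2 := mul_le_mul_of_nonneg_left hB (sub_nonneg.2 hθ1)
    linarith [(by ring : θ * N + (1 - θ) * N = N)]
  have hms := hY.ms w hw0
  have hpt : qf (fun A B => (1 - (1 - θ) * c) * pos Y A B + (-(√2 * θ * c)) * rho Y A B) w
      ≤ qf (fun A B => β * min 1 (2 * pos Y A B) + 0 * rho Y A B) w := by
    apply qf_mono' _ _ _ hw0
    intro A B hA hB
    show (1 - (1 - θ) * c) * pos Y A B + (-(√2 * θ * c)) * rho Y A B
      ≤ β * min 1 (2 * pos Y A B) + 0 * rho Y A B
    rw [zero_mul, add_zero]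
    have hle := Y_le_one hY hA hB
    rcases le_or_gt (Y A B) 0 with h | h
    · have e1 : pos Y A B = 0 := max_eq_right h
      have e2 : rho Y A B = 0 := rho_of_ge (by linarith)
      rw [e1, e2]
      simp
    · have e1 : pos Y A B = Y A B := max_eq_left h.le
      rw [e1]
      rcases le_or_gt (Y A B) (1 / 2) with h' | h'
      · have e2 : rho Y A B = 0 := rho_of_ge (not_lt.2 h')
        rw [e2, min_eq_right (by linarith)]
        nlinarith
      · have e2 : rho Y A B = 2 * Y A B - 1 := rho_of_lt h'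
        rw [e2, min_eq_left (by linarith)]
        have f1 := mul_le_mul_of_nonneg_left h1 (sub_nonneg.2 hle)
        have f2 := mul_le_mul_of_nonneg_left h2 (by linarith : 0 ≤ 2 * Y A B - 1)
        nlinarith
  rw [qf_lin, qf_lin] at hpt
  have hsum : ∑ A, w A ≤ D := by
    rw [← sum_cnt T]
    refine Finset.sum_le_sum fun A _ => ?_
    rw [hw]
    unfold mass
    exact_mod_cast Nat.sub_le _ _
  have hsum0 : 0 ≤ ∑ A, w A := Finset.sum_nonneg fun A _ => hw0 A
  have hsq : (∑ A, w A) ^ 2 ≤ (D : ℝ) ^ 2 := pow_le_pow_left₀ hsum0 hsum 2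
  have hms' : β * qf (fun A B => min 1 (2 * pos Y A B)) w ≤ β * ((D : ℝ) ^ 2 / 2) := by
    apply mul_le_mul_of_nonneg_left _ hβ
    linarith
  rw [qf_split Y w]
  have hcard : (1 - θ) * (2 * (Fintype.card J : ℝ)) ≤ 2 * Fintype.card J := by nlinarith
  nlinarith

/-- the dual bound of a scheme -/
theorem dualBound (hc0 : 0 ≤ c) {θ β : ℝ} (hθ0 : 0 ≤ θ) (hθ1 : θ ≤ 1) (hβ : 0 ≤ β)
    (h1 : (1 - (1 - θ) * c) / 2 ≤ β) (h2 : 1 - (1 - θ) * c - √2 * θ * c ≤ β) :
    DualBound k (β / 4) (2 ^ k + Fintype.card J) := by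
  intro D T y hy
  obtain ⟨Y, hY, htot⟩ := exists_TK T y hy
  have h3 := S.combine hY hc0 hθ0 hθ1 hβ h1 h2
  rcases Nat.eq_zero_or_pos D with hD | hD
  · subst hD
    simp [tot]
  · have hD1 : (1 : ℝ) ≤ D := by exact_mod_cast hD
    have hJ : (0 : ℝ) ≤ Fintype.card J := Nat.cast_nonneg _
    have : 2 * (Fintype.card J : ℝ) ≤ 2 * (Fintype.card J : ℝ) * D := by nlinarith
    linarith

end Scheme

end Pool.Agent.H69.CPR
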