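import Mathlib
import Pool.Agent.H69.CPR.Comb

/-!
# The systems of cliques used for each number of covering cliques
-/

open Finset

namespace Pool.Agent.H69.CPR

open Pool.Agent.H29.CPR

/-- The system of the `k` covering cliques with the uniform weights. -/
noncomputable def simple (k : ℕ) : Scheme k (Fin k) (2 / ((k : ℝ) + 1)) where
  φ := fun j A => if j ∈ A then 1 / √(A.card : ℝ) else 0
  nonneg := by
    intro j A
    split_ifs
    · positivity
    · exact le_rfl
  supp := by
    intro j A B hA hB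
    refine ⟨j, Finset.mem_inter.2 ⟨?_, ?_⟩⟩
    · by_contra h
      exact hA (if_neg h)
    · by_contra h
      exact hB (if_neg h)
  sq := by
    intro A
    have h1 : ∀ j, (if j ∈ A then 1 / √(A.card : ℝ) else 0) ^ 2
        = if j ∈ A then 1 / (A.card : ℝ) else 0 := by
      intro j
      split_ifs
      · rw [div_pow, Real.sq_sqrt (Nat.cast_nonneg _), one_pow]
      · simp
    rw [Finset.sum_congr rfl fun j _ => h1 j, ← Finset.sum_filter, Finset.sum_const,
      Finset.filter_mem_eq_inter, Finset.univ_inter, nsmul_eq_mul]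
    by_cases h : (A.card : ℝ) = 0
    · rw [h]; simp
    · rw [mul_one_div_cancel h]
  ov := by
    intro A B _ hAB
    refine (overlap_ge A B hAB).trans (le_of_eq ?_)
    have h1 : ∀ j, (if j ∈ A then 1 / √(A.card : ℝ) else 0)
        * (if j ∈ B then 1 / √(B.card : ℝ) else 0)
        = if j ∈ A ∩ B then (1 / √(A.card : ℝ)) * (1 / √(B.card : ℝ)) else 0 := by
      intro j
      by_cases hA : j ∈ A <;> by_cases hB : j ∈ B <;> simp [hA, hB]
    rw [Finset.sum_congr rfl fun j _ => h1 j, ← Finset.sum_filter, Finset.sum_const,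
      Finset.filter_mem_eq_inter, Finset.univ_inter, nsmul_eq_mul]
    rw [div_eq_mul_one_div, one_div_mul_one_div]

/-- A system given by natural numbers. -/
noncomputable def ofNat {k : ℕ} {J : Type} [Fintype J] (f : J → Finset (Fin k) → ℕ) (N c : ℕ)
    (hN : 0 < N) (supp : ∀ j A B, f j A ≠ 0 → f j B ≠ 0 → (A ∩ B).Nonempty)
    (sq : ∀ A, ∑ j, f j A ^ 2 ≤ N ^ 2)
    (ov : ∀ A B, A ≠ B → (A ∩ B).Nonempty → c ≤ ∑ j, f j A * f j B) :
    Scheme k J ((c : ℝ) / (N : ℝ) ^ 2) where
  φ := fun j A => (f j A : ℝ) / N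
  nonneg := fun j A => by positivity
  supp := by
    intro j A B hA hB
    apply supp j A B
    · intro h
      apply hA
      rw [h]
      simp
    · intro h
      apply hB
      rw [h]
      simp
  sq := by
    intro A
    have hN' : (0 : ℝ) < N := by exact_mod_cast hN
    have h1 : ∑ j, ((f j A : ℝ) / N) ^ 2 = (∑ j, (f j A : ℝ) ^ 2) / (N : ℝ) ^ 2 := by
      rw [Finset.sum_div]
      exact Finset.sum_congr rfl fun j _ => by rw [div_pow]
    rw [h1, div_le_one (by positivity)]
    exact_mod_cast sq A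
  ov := by
    intro A B h h'
    have hN' : (0 : ℝ) < N := by exact_mod_cast hN
    have h1 : ∑ j, ((f j A : ℝ) / N) * ((f j B : ℝ) / N)
        = (∑ j, (f j A : ℝ) * (f j B : ℝ)) / (N : ℝ) ^ 2 := by
      rw [Finset.sum_div]
      refine Finset.sum_congr rfl fun j _ => ?_
      rw [div_mul_div_comm, pow_two]
    rw [h1]
    apply div_le_div_of_nonneg_right _ (by positivity)
    exact_mod_cast ov A B h h'

/-- weights for three covering cliques and the clique of the types of size two -/
def f3 : Option (Fin 3) → Finset (Fin 3) → ℕ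
  | none, A => if A.card = 2 then 35 else 0
  | some j, A => if j ∈ A then (if A.card = 1 then 70 else if A.card = 2 then 42 else 40) else 0

noncomputable def scheme3 : Scheme 3 (Option (Fin 3)) (((2800 : ℕ) : ℝ) / ((70 : ℕ) : ℝ) ^ 2) :=
  ofNat f3 70 2800 (by norm_num) (by decide) (by decide) (by decide)

/-- weights for four covering cliques and the four majority cliques -/
def f4 : Fin 4 ⊕ Fin 4 → Finset (Fin 4) → ℕ
  | Sum.inl j, A => if j ∈ A then (if A.card = 1 then 4 else 2) else 0
  | Sum.inr l, A => if 2 ≤ (A.erase l).card then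
      (if A.card = 2 then 2 else if A.card = 3 then 1 else 0) else 0

noncomputable def scheme4 : Scheme 4 (Fin 4 ⊕ Fin 4) (((8 : ℕ) : ℝ) / ((4 : ℕ) : ℝ) ^ 2) :=
  ofNat f4 4 8 (by norm_num) (by decide) (by decide) (by decide)

theorem sqrt_two_ge : (1.414 : ℝ) ≤ √2 := by
  apply Real.le_sqrt_of_sq_le
  norm_num

theorem sqrt_two_le : √2 ≤ (1.415 : ℝ) := by
  rw [Real.sqrt_le_iff]
  norm_num

theorem dualBound3 : DualBound 3 (1 / 12) (2 ^ 3 + Fintype.card (Option (Fin 3))) := by
  have h := scheme3.dualBound (θ := 5 / 12) (β := 1 / 3) (by positivity) (by norm_num)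
    (by norm_num) (by norm_num) (by norm_num) (by
      have := sqrt_two_ge
      norm_num
      nlinarith)
  norm_num at h ⊢
  exact h

theorem dualBound4 : DualBound 4 (1 / 10) (2 ^ 4 + Fintype.card (Fin 4 ⊕ Fin 4)) := by
  have h := scheme4.dualBound (θ := 3 / 5) (β := 2 / 5) (by positivity) (by norm_num)
    (by norm_num) (by norm_num) (by norm_num) (by
      have := sqrt_two_ge
      norm_num
      nlinarith)
  norm_num at h ⊢
  exact h

theorem dualBound_ge5 (k : ℕ) (hk : 5 ≤ k) :
    DualBound k ((1 - 2 * √2 / ((k : ℝ) + 1)) / 4) (2 ^ k + Fintype.card (Fin k)) := by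
  have hk' : (5 : ℝ) ≤ k := by exact_mod_cast hk
  have h2 := sqrt_two_le
  have h0 := Real.sqrt_nonneg 2
  have hle : 2 * √2 / ((k : ℝ) + 1) ≤ 1 / 2 := by
    rw [div_le_iff₀ (by linarith)]
    nlinarith
  refine (simple k).dualBound (θ := 1) (β := 1 - 2 * √2 / ((k : ℝ) + 1)) (by positivity)
    zero_le_one le_rfl (by linarith) (by simp; linarith) ?_
  have : √2 * 1 * (2 / ((k : ℝ) + 1)) = 2 * √2 / ((k : ℝ) + 1) := by ring
  rw [this]
  simp

end Pool.Agent.H69.CPR
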