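import Mathlib
import Pool.Agent.H69.CPR.Schemes

/-!
# Two covering cliques
-/

open Finset

namespace Pool.Agent.H69.CPR

open Pool.Agent.H29.CPR

theorem two_types : ∀ A B : Finset (Fin 2), A ≠ B → (A ∩ B).Nonempty →
    (∃ j : Fin 2, A = {j} ∧ B = univ) ∨ (∃ j : Fin 2, A = univ ∧ B = {j}) := by
  decide

/-- the value of the overlap -/
theorem simple_two (j : Fin 2) : ∀ i : Fin 2,
    (simple 2).φ i {j} * (simple 2).φ i univ = if i = j then 1 / √2 else 0 := by
  intro i
  show (if i ∈ ({j} : Finset (Fin 2)) then 1 / √((({j} : Finset (Fin 2)).card : ℕ) : ℝ) else 0)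
    * (if i ∈ (univ : Finset (Fin 2)) then 1 / √(((univ : Finset (Fin 2)).card : ℕ) : ℝ) else 0) = _
  by_cases h : i = j
  · subst h
    simp
  · simp [h]

theorem pt_big {y : ℝ} (h0 : 0 ≤ y) (h : y ≤ 17 / 25) : y - (1 / √2) * y ≤ 1 / 5 := by
  have h2 := sqrt_two_le
  have h3 : (1 / 1.415 : ℝ) ≤ 1 / √2 := by
    apply one_div_le_one_div_of_le _ h2
    exact Real.sqrt_pos.2 (by norm_num)
  have h4 := mul_le_mul_of_nonneg_right h3 h0
  norm_num at h4
  nlinarith

theorem pt_lin {y : ℝ} (h : 17 / 25 < y) :
    y - (1 / √2) * ((1 / √2) * ((2 * y - 1) + √(2 * y - 1))) ≤ 1 / 5 := by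
  have h1 : (1 / √2) * ((1 / √2) * ((2 * y - 1) + √(2 * y - 1)))
      = ((2 * y - 1) + √(2 * y - 1)) / 2 := by
    have hsq2 : √2 * √2 = 2 := Real.mul_self_sqrt (by norm_num)
    rw [← mul_assoc, one_div_mul_one_div, hsq2]
    ring
  rw [h1]
  have h2 : (3 / 5 : ℝ) ≤ √(2 * y - 1) := by
    apply Real.le_sqrt_of_sq_le
    norm_num
    linarith
  linarith

theorem dualBound2 : DualBound 2 (1 / 20) (2 ^ 2 + 2) := by
  classical
  intro D T y hy
  obtain ⟨Y, hY, htot⟩ := exists_TK T y hy
  set S := simple 2 with hS
  set w := mass T with hw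
  have hw0 : ∀ A, 0 ≤ w A := mass_nonneg T
  have hsq0 : 0 < √2 := Real.sqrt_pos.2 (by norm_num)
  have hNle : ∑ j, qf (neg Y) (fun A => S.φ j A * w A) ≤ qf (neg Y) w := S.neg_ge
  -- the choice of the inequality on each clique
  let H : Fin 2 → Finset (Fin 2) → Finset (Fin 2) → ℝ := fun j A B =>
    if Y {j} univ ≤ 17 / 25 then pos Y A B else (1 / √2) * (rho Y A B + srho Y A B)
  have hH0 : ∀ j A B, 0 ≤ H j A B := by
    intro j A B
    simp only [H]
    split_ifs
    · exact pos_nonneg Y A B
    · have := rho_nonneg Y A B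
      have := srho_nonneg Y A B
      positivity
  have hHj : ∀ j, qf (H j) (fun A => S.φ j A * w A) - 2
      ≤ qf (neg Y) (fun A => S.φ j A * w A) := by
    intro j
    by_cases h : Y {j} univ ≤ 17 / 25
    · have e : H j = pos Y := by
        funext A B
        simp only [H]
        rw [if_pos h]
      rw [e]
      exact S.big_j hY j
    · have e : H j = fun A B => (1 / √2) * (rho Y A B + srho Y A B)
          + 0 * (rho Y A B + srho Y A B) := by
        funext A B
        simp only [H]
        rw [if_neg h]
        ring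
      rw [e, qf_lin]
      have h3 := S.lin_j hY j
      have h4 : (1 / √2) * qf (fun A B => rho Y A B + srho Y A B) (fun A => S.φ j A * w A)
          ≤ (1 / √2) * (√2 * qf (neg Y) (fun A => S.φ j A * w A)) :=
        mul_le_mul_of_nonneg_left h3 (by positivity)
      rw [← mul_assoc, one_div_mul_cancel hsq0.ne', one_mul] at h4
      linarith
  have hsum : ∑ j, (qf (H j) (fun A => S.φ j A * w A) - 2) ≤ qf (neg Y) w :=
    (Finset.sum_le_sum fun j _ => hHj j).trans hNle
  rw [Finset.sum_sub_distrib] at hsum
  -- the star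
  let E : Finset (Fin 2) → Finset (Fin 2) → ℝ := fun A B =>
    if (A = univ ∧ B ≠ univ) ∨ (A ≠ univ ∧ B = univ) then 1 else 0
  have hE0 : ∀ A B, 0 ≤ E A B := by
    intro A B
    simp only [E]
    split_ifs <;> norm_num
  have hmantel : qf E w ≤ (∑ A, w A) ^ 2 / 2 := by
    apply mantel_qf E w hE0 _ _ hw0
    · intro A B
      simp only [E]
      congr 1
      apply propext
      tauto
    · intro A B hAB C
      simp only [E] at hAB ⊢
      by_cases hA : A = univ <;> by_cases hB : B = univ <;> by_cases hC : C = univ <;>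
        simp [hA, hB, hC] at hAB ⊢
  -- pointwise
  have hpt : qf (pos Y) w ≤ (1 / 5) * qf E w + ∑ j, qf (H j) (fun A => S.φ j A * w A) := by
    have e1 : ∑ j, qf (H j) (fun A => S.φ j A * w A)
        = qf (fun A B => ∑ j, S.φ j A * S.φ j B * H j A B) w := by
      unfold qf
      rw [Finset.sum_comm]
      refine Finset.sum_congr rfl fun A _ => ?_
      rw [Finset.sum_comm]
      refine Finset.sum_congr rfl fun B _ => ?_
      rw [Finset.sum_mul]
      refine Finset.sum_congr rfl fun j _ => ?_
      show H j A B * ((S.φ j A * w A) * (S.φ j B * w B)) = _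
      ring
    have e2 := qf_lin E (fun A B => ∑ j, S.φ j A * S.φ j B * H j A B) (1 / 5) 1 w
    rw [one_mul] at e2
    rw [e1, ← e2]
    apply Scheme.qf_mono' _ _ _ hw0
    intro A B hA hB
    show pos Y A B ≤ 1 / 5 * E A B + 1 * ∑ j, S.φ j A * S.φ j B * H j A B
    have hsig0 : 0 ≤ ∑ j, S.φ j A * S.φ j B * H j A B :=
      Finset.sum_nonneg fun j _ => mul_nonneg (mul_nonneg (S.nonneg j A) (S.nonneg j B)) (hH0 j A B)
    rcases le_or_gt (Y A B) 0 with h | h
    · have e3 : pos Y A B = 0 := max_eq_right h
      rw [e3]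
      have := hE0 A B
      linarith
    · have e3 : pos Y A B = Y A B := max_eq_left h.le
      rw [e3]
      have hne : A ≠ B := by
        rintro rfl
        linarith [hY.diag A]
      have hadj : (A ∩ B).Nonempty := by
        by_contra h'
        rw [hY.adj A B h'] at h
        exact lt_irrefl _ h
      -- the main case
      have key : ∀ j : Fin 2, 0 < Y {j} univ → Y {j} univ ≤ 1 / 5
          + ∑ i, S.φ i {j} * S.φ i univ * H i {j} univ := by
        intro j hj
        have e4 : ∑ i, S.φ i {j} * S.φ i univ * H i {j} univ = (1 / √2) * H j {j} univ := by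
          rw [Finset.sum_eq_single j]
          · rw [simple_two j j, if_pos rfl]
          · intro i _ hij
            rw [simple_two j i, if_neg hij, zero_mul]
          · intro h'
            exact absurd (mem_univ j) h'
        rw [e4]
        have e5 : pos Y {j} univ = Y {j} univ := max_eq_left hj.le
        by_cases hle : Y {j} univ ≤ 17 / 25
        · have e6 : H j {j} univ = Y {j} univ := by
            simp only [H]
            rw [if_pos hle, e5]
          rw [e6]
          have := pt_big hj.le hle
          linarith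
        · have e6 : H j {j} univ = (1 / √2) * ((2 * Y {j} univ - 1) + √(2 * Y {j} univ - 1)) := by
            simp only [H]
            rw [if_neg hle]
            unfold srho
            rw [rho_of_lt (by linarith)]
          rw [e6]
          have := pt_lin (not_le.1 hle)
          linarith
      rcases two_types A B hne hadj with ⟨j, rfl, rfl⟩ | ⟨j, rfl, rfl⟩
      · have e7 : E {j} univ = 1 := by
          simp only [E]
          rw [if_pos]
          right
          exact ⟨hne, trivial⟩
        rw [e7]
        have := key j h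
        linarith
      · have e7 : E univ {j} = 1 := by
          simp only [E]
          rw [if_pos]
          left
          exact ⟨trivial, hne.symm⟩
        rw [e7]
        have hs : Y univ {j} = Y {j} univ := hY.sym _ _
        have h8 := key j (by rw [← hs]; exact h)
        have e8 : ∑ i, S.φ i univ * S.φ i {j} * H i univ {j}
            = ∑ i, S.φ i {j} * S.φ i univ * H i {j} univ := by
          refine Finset.sum_congr rfl fun i _ => ?_
          have e9 : H i univ {j} = H i {j} univ := by
            simp only [H]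
            unfold srho rho pos
            rw [hs]
          rw [e9]
          ring
        rw [e8, hs]
        linarith
  have hD0 : (0 : ℝ) ≤ D := Nat.cast_nonneg _
  have hsumw : ∑ A, w A ≤ D := by
    rw [← sum_cnt T]
    refine Finset.sum_le_sum fun A _ => ?_
    rw [hw]
    unfold mass
    exact_mod_cast Nat.sub_le _ _
  have hsum0 : 0 ≤ ∑ A, w A := Finset.sum_nonneg fun A _ => hw0 A
  have hsq : (∑ A, w A) ^ 2 ≤ (D : ℝ) ^ 2 := pow_le_pow_left₀ hsum0 hsumw 2
  rw [Scheme.qf_split Y w] at htot
  simp only [Finset.sum_const, Finset.card_univ, nsmul_eq_mul, Fintype.card_fin] at hsum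
  push_cast at hsum
  have hfin : tot (tg T) y ≤ (1 / 5) * ((D : ℝ) ^ 2 / 2) + 4 + 2 * 2 ^ 2 * D := by
    linarith
  rcases Nat.eq_zero_or_pos D with hD | hD
  · subst hD
    simp [tot]
  · have hD1 : (1 : ℝ) ≤ D := by exact_mod_cast hD
    linarith

end Pool.Agent.H69.CPR
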