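import Mathlib
import Pool.Agent.H69.CPR.Two

/-!
# The ratio of the clique partition number to the clique cover number is at most `n² / 36`
-/

open Filter

namespace Pool.Agent.H69.CPR.UpperBound36

open Pool.Agent.H22.F10f644 Pool.Agent.H29.CPR Pool.Agent.H69.CPR

/-- The set of the constants `c` of the question of Erdős, Faudree and Ordman. -/
def Good : Set ℝ :=
  {c | ∀ N : ℕ, ∃ n : ℕ, N ≤ n ∧ ∃ G : SimpleGraph (Fin n), G ≠ ⊥ ∧
    c * (n : ℝ) ^ 2 < (cp G : ℝ) / cc G}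

/-- The bound for graphs with clique cover number `k`. -/
noncomputable def bound (k : ℕ) : ℝ :=
  if k ≤ 1 then 0 else if k = 2 then 1 / 20 else if k = 3 then 1 / 12 else if k = 4 then 1 / 10
    else (1 - 2 * √2 / ((k : ℝ) + 1)) / 4

theorem cc_pos {n : ℕ} (G : SimpleGraph (Fin n)) (hG : G ≠ ⊥) : (0 : ℝ) < cc G := by
  obtain ⟨F, hF, hFc⟩ := cc_spec G
  have : cc G ≠ 0 := by
    intro h0
    rw [h0, Finset.card_eq_zero] at hFc
    apply hG
    ext u v
    simp only [SimpleGraph.bot_adj, iff_false]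
    intro huv
    obtain ⟨K, hK, -⟩ := hF.2 u v huv
    rw [hFc] at hK
    exact absurd hK (Finset.notMem_empty K)
  exact_mod_cast Nat.pos_of_ne_zero this

theorem bound_nonneg (k : ℕ) : 0 ≤ bound k := by
  unfold bound
  split_ifs with h1 h2 h3 h4
  · exact le_rfl
  · norm_num
  · norm_num
  · norm_num
  · have hk : (5 : ℝ) ≤ k := by exact_mod_cast (by omega : 5 ≤ k)
    have h5 := sqrt_two_le
    have : 2 * √2 / ((k : ℝ) + 1) ≤ 1 := by
      rw [div_le_one (by linarith)]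
      linarith
    linarith

theorem dualBound_bound (k : ℕ) : ∃ C, DualBound k (bound k) C := by
  unfold bound
  split_ifs with h1 h2 h3 h4
  · rcases Nat.eq_zero_or_pos k with hk | hk
    · subst hk
      refine ⟨0, ?_⟩
      intro D T y _
      have : tot (tg T) y = 0 := by
        unfold tot
        refine Finset.sum_eq_zero fun u _ => Finset.sum_eq_zero fun v _ => ?_
        rw [if_neg]
        rintro ⟨-, i, -⟩
        exact i.elim0
      rw [this]
      simp
    · have hk1 : k = 1 := by omega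
      subst hk1
      have h := dualBound_simple 1 le_rfl
      refine ⟨1, ?_⟩
      norm_num at h
      exact h
  · subst h2
    exact ⟨_, dualBound2⟩
  · subst h3
    exact ⟨_, dualBound3⟩
  · subst h4
    exact ⟨_, dualBound4⟩
  · exact ⟨_, dualBound_ge5 k (by omega)⟩

theorem bound_le (k : ℕ) : bound k ≤ 1 / 36 * k := by
  unfold bound
  split_ifs with h1 h2 h3 h4
  · positivity
  · subst h2; norm_num
  · subst h3; norm_num
  · subst h4; norm_num
  · have hk : (5 : ℝ) ≤ k := by exact_mod_cast (by omega : 5 ≤ k)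
    have h5 := sqrt_two_ge
    have hpos : (0 : ℝ) < (k : ℝ) + 1 := by linarith
    have h6 : 1 - 2 * √2 / ((k : ℝ) + 1) = ((k : ℝ) + 1 - 2 * √2) / ((k : ℝ) + 1) := by
      field_simp
    rw [h6, div_div, div_le_iff₀ (by positivity)]
    nlinarith [sq_nonneg ((k : ℝ) - 4)]

/-- **Upper bound `1/36`.** -/
theorem result :
    (∀ ε : ℝ, 0 < ε → ∀ᶠ n : ℕ in atTop, ∀ G : SimpleGraph (Fin n), G ≠ ⊥ →
      (cp G : ℝ) / cc G ≤ (1 / 36 + ε) * (n : ℝ) ^ 2) ∧
    (∀ k : ℕ, ∀ ε : ℝ, 0 < ε → ∀ᶠ n : ℕ in atTop, ∀ G : SimpleGraph (Fin n), cc G = k →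
      (cp G : ℝ) ≤ (bound k + ε) * (n : ℝ) ^ 2) ∧
    (∀ c ∈ Good, c ≤ 1 / 36) := by
  have h1 : ∀ ε : ℝ, 0 < ε → ∀ᶠ n : ℕ in atTop, ∀ G : SimpleGraph (Fin n), G ≠ ⊥ →
      (cp G : ℝ) / cc G ≤ (1 / 36 + ε) * (n : ℝ) ^ 2 := by
    intro ε hε
    obtain ⟨n0, hn0⟩ := upper_of_dual (1 / 36) (by norm_num) 18 (by norm_num) (by
      intro k _
      obtain ⟨C, hC⟩ := dualBound_bound k
      exact ⟨bound k, C, bound_nonneg k, hC, bound_le k⟩) ε hε
    filter_upwards [eventually_ge_atTop n0] with n hn G hG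
    have h2 := hn0 n hn G hG
    rw [div_le_iff₀ (cc_pos G hG)]
    linarith
  refine ⟨h1, ?_, ?_⟩
  · intro k ε hε
    obtain ⟨C, hC⟩ := dualBound_bound k
    obtain ⟨n0, hn0⟩ := transfer (bound_nonneg k) hC ε hε
    filter_upwards [eventually_ge_atTop n0] with n hn G hG
    obtain ⟨F, hF, hFc⟩ := cc_spec G
    obtain ⟨S, hS⟩ := exists_types G F hF (hFc.trans hG)
    rw [hS]
    exact hn0 n hn S
  · intro c hc
    by_contra hlt
    push Not at hlt
    obtain ⟨n0, hn0⟩ := eventually_atTop.1 (h1 (c - 1 / 36) (by linarith))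
    obtain ⟨n, hn, G, hG, hcG⟩ := hc n0
    have := hn0 n hn G hG
    have e : (1 / 36 + (c - 1 / 36)) * (n : ℝ) ^ 2 = c * (n : ℝ) ^ 2 := by ring
    rw [e] at this
    exact absurd hcG (not_lt.2 this)

end Pool.Agent.H69.CPR.UpperBound36
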